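import Mathlib
import Pool.Agent.W151.TreeLink

set_option autoImplicit false
set_option linter.unusedSectionVars false

/-! # The number of trees on a vertex set: cut vertices -/

namespace Pool.Agent.R39.ST

open Finset
open Pool.Agent.W151.TreeRec (tau IsPar Par mem_Par tau_eq iter_fix)

variable {V : Type} [Fintype V] {G : SimpleGraph V}

lemma tau_empty : tau G ∅ = 0 := by
  unfold tau
  have : {H : G.Subgraph | H.coe.IsTree ∧ H.verts = ((∅ : Finset V) : Set V)} = ∅ := by
    rw [Set.eq_empty_iff_forall_notMem]
    rintro H ⟨h1, h2⟩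
    obtain ⟨v, hv⟩ := h1.connected.nonempty
    rw [h2] at hv
    simp at hv
  rw [this, Set.ncard_empty]

lemma tau_singleton (x : V) : tau G {x} = 1 := by
  rw [tau_eq G {x} x (mem_singleton_self x)]
  have : Par G {x} x = {id} := by
    ext π
    rw [mem_Par, mem_singleton]
    constructor
    · intro h
      funext v
      apply h.1
      by_cases hv : v = x
      · exact Or.inr hv
      · left; simpa using hv
    · rintro rfl
      refine ⟨fun _ _ => rfl, ?_, ?_⟩
      · intro v hv hvx
        exact absurd (mem_singleton.1 hv) hvx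
      · intro v hv
        exact ⟨0, mem_singleton.1 hv⟩
  rw [this, card_singleton]

lemma tau_split [DecidableEq V] {S1 S2 : Finset V} (h1 : S1.Nonempty) (h2 : S2.Nonempty)
    (hd : ∀ v ∈ S1, v ∉ S2) (hno : ∀ a ∈ S1, ∀ b ∈ S2, ¬ G.Adj a b) :
    tau G (S1 ∪ S2) = 0 := by
  obtain ⟨r, hr⟩ := h1
  obtain ⟨y, hy⟩ := h2
  rw [tau_eq G _ r (mem_union_left _ hr), card_eq_zero, eq_empty_iff_forall_notMem]
  intro π hπ
  rw [mem_Par] at hπ
  have key : ∀ k, π^[k] y ∈ S2 := by
    intro k
    induction k with
    | zero => exact hy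
    | succ k ih =>
      rw [Function.iterate_succ_apply']
      have hne : π^[k] y ≠ r := fun h => hd r hr (h ▸ ih)
      obtain ⟨h3, h4⟩ := hπ.2.1 _ (mem_union_right _ ih) hne
      rcases mem_union.1 h3 with h5 | h5
      · exact absurd h4.symm (hno _ h5 _ ih)
      · exact h5
  obtain ⟨k, hk⟩ := hπ.2.2 y (mem_union_right _ hy)
  exact hd r hr (hk ▸ key k)

lemma isPar_restrict [DecidableEq V] {S1 S2 : Finset V} {u : V} (hu1 : u ∈ S1)
    (hno : ∀ a ∈ S1, ∀ b ∈ S2, a ≠ u → b ≠ u → ¬ G.Adj a b) {π : V → V}
    (h : IsPar G (S1 ∪ S2) u π) : IsPar G S1 u (fun v => if v ∈ S1 then π v else v) := by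
  have hmem : ∀ v ∈ S1, π v ∈ S1 := by
    intro v hv
    by_cases hvu : v = u
    · rw [hvu, h.root]; exact hu1
    · obtain ⟨h3, h4⟩ := h.2.1 v (mem_union_left _ hv) hvu
      rcases mem_union.1 h3 with h5 | h5
      · exact h5
      · by_cases h6 : π v = u
        · rw [h6]; exact hu1
        · exact absurd h4 (hno v hv _ h5 hvu h6)
  refine ⟨?_, ?_, ?_⟩
  · intro v hv
    by_cases hv1 : v ∈ S1
    · have hvu : v = u := by tauto
      simp only [hv1, if_true]
      rw [hvu, h.root]
    · simp only [hv1, if_false]
  · intro v hv hvu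
    simp only [hv, if_true]
    exact ⟨hmem v hv, (h.2.1 v (mem_union_left _ hv) hvu).2⟩
  · intro v hv
    obtain ⟨k, hk⟩ := h.2.2 v (mem_union_left _ hv)
    refine ⟨k, ?_⟩
    rw [← hk]
    have key : ∀ k, (fun v => if v ∈ S1 then π v else v)^[k] v = π^[k] v ∧ π^[k] v ∈ S1 := by
      intro k
      induction k with
      | zero => exact ⟨rfl, hv⟩
      | succ k ih =>
        rw [Function.iterate_succ_apply', Function.iterate_succ_apply', ih.1]
        simp only [ih.2, if_true]
        exact ⟨trivial, hmem _ ih.2⟩
    exact (key k).1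

lemma tau_cut [DecidableEq V] {S1 S2 : Finset V} {u : V} (hu1 : u ∈ S1) (hu2 : u ∈ S2)
    (hd : ∀ v ∈ S1, v ∈ S2 → v = u)
    (hno : ∀ a ∈ S1, ∀ b ∈ S2, a ≠ u → b ≠ u → ¬ G.Adj a b) :
    tau G (S1 ∪ S2) = tau G S1 * tau G S2 := by
  rw [tau_eq G _ u (mem_union_left _ hu1), tau_eq G _ u hu1, tau_eq G _ u hu2, ← card_product]
  symm
  apply card_bij (fun p _ => fun v => if v ∈ S1 then p.1 v else p.2 v)
  · rintro ⟨π1, π2⟩ hp
    rw [mem_product, mem_Par, mem_Par] at hp
    obtain ⟨h1, h2⟩ := hp
    simp only at h1 h2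
    rw [mem_Par]
    refine ⟨?_, ?_, ?_⟩
    · intro v hv
      by_cases hv1 : v ∈ S1
      · simp only [hv1, if_true]
        apply h1.1
        rcases hv with hv | hv
        · exact absurd (mem_union_left _ hv1) hv
        · exact Or.inr hv
      · simp only [hv1, if_false]
        apply h2.1
        rcases hv with hv | hv
        · left; exact fun h => hv (mem_union_right _ h)
        · exact Or.inr hv
    · intro v hv hvu
      by_cases hv1 : v ∈ S1
      · simp only [hv1, if_true]
        obtain ⟨h3, h4⟩ := h1.2.1 v hv1 hvu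
        exact ⟨mem_union_left _ h3, h4⟩
      · simp only [hv1, if_false]
        obtain ⟨h3, h4⟩ := h2.2.1 v ((mem_union.1 hv).resolve_left hv1) hvu
        exact ⟨mem_union_right _ h3, h4⟩
    · intro v hv
      by_cases hv1 : v ∈ S1
      · obtain ⟨k, hk⟩ := h1.2.2 v hv1
        refine ⟨k, ?_⟩
        rw [← hk]
        have key : ∀ k, (fun v => if v ∈ S1 then π1 v else π2 v)^[k] v = π1^[k] v := by
          intro k
          induction k with
          | zero => rfl
          | succ k ih =>
            rw [Function.iterate_succ_apply', Function.iterate_succ_apply', ih]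
            simp only [h1.iter_mem hv1 k, if_true]
        exact key k
      · have hv2 : v ∈ S2 := (mem_union.1 hv).resolve_left hv1
        obtain ⟨k, hk⟩ := h2.2.2 v hv2
        refine ⟨k, ?_⟩
        rw [← hk]
        have key : ∀ k, (fun v => if v ∈ S1 then π1 v else π2 v)^[k] v = π2^[k] v := by
          intro k
          induction k with
          | zero => rfl
          | succ k ih =>
            rw [Function.iterate_succ_apply', Function.iterate_succ_apply', ih]
            by_cases h5 : π2^[k] v ∈ S1
            · have h6 := hd _ h5 (h2.iter_mem hv2 k)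
              simp only [h5, if_true]
              rw [h6, h1.root, h2.root]
            · simp only [h5, if_false]
        exact key k
  · rintro ⟨π1, π2⟩ hp ⟨π1', π2'⟩ hp' heq
    rw [mem_product, mem_Par, mem_Par] at hp hp'
    obtain ⟨h1, h2⟩ := hp
    obtain ⟨h1', h2'⟩ := hp'
    simp only at h1 h2 h1' h2' heq
    have e1 : π1 = π1' := by
      funext v
      by_cases hv : v ∈ S1
      · have := congrFun heq v
        simpa only [hv, if_true] using this
      · rw [h1.1 v (Or.inl hv), h1'.1 v (Or.inl hv)]
    have e2 : π2 = π2' := by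
      funext v
      by_cases hv : v ∈ S2
      · by_cases hv1 : v ∈ S1
        · have h6 := hd _ hv1 hv
          rw [h6, h2.root, h2'.root]
        · have := congrFun heq v
          simpa only [hv1, if_false] using this
      · rw [h2.1 v (Or.inl hv), h2'.1 v (Or.inl hv)]
    rw [e1, e2]
  · intro π hπ
    rw [mem_Par] at hπ
    refine ⟨(fun v => if v ∈ S1 then π v else v, fun v => if v ∈ S2 then π v else v), ?_, ?_⟩
    · rw [mem_product, mem_Par, mem_Par]
      refine ⟨isPar_restrict hu1 hno hπ, ?_⟩
      have hπ' : IsPar G (S2 ∪ S1) u π := by rw [union_comm]; exact hπ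
      exact isPar_restrict hu2 (fun a ha b hb h3 h4 h5 => hno b hb a ha h4 h3 h5.symm) hπ'
    · funext v
      by_cases hv1 : v ∈ S1
      · simp only [hv1, if_true]
      · simp only [hv1, if_false]
        by_cases hv2 : v ∈ S2
        · simp only [hv2, if_true]
        · simp only [hv2, if_false]
          exact (hπ.1 v (Or.inl (fun h => (mem_union.1 h).elim hv1 hv2))).symm

/-- `tau` is positive exactly on the connected sets -/
lemma tau_ne_zero_iff (S : Finset V) : tau G S ≠ 0 ↔ (G.induce (S : Set V)).Connected := by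
  unfold tau
  rw [Ne, Set.ncard_eq_zero (Set.toFinite _), ← Ne, ← Set.nonempty_iff_ne_empty]
  constructor
  · rintro ⟨H, h1, h2⟩
    have h3 := h1.connected
    have h4 : H.Connected := by
      rw [SimpleGraph.Subgraph.connected_iff']
      exact h3
    have := h4.induce_verts
    rwa [h2] at this
  · intro h
    obtain ⟨T, hT1, hT2⟩ := h.exists_isTree_le
    refine ⟨(SimpleGraph.Subgraph.map (SimpleGraph.Embedding.induce (S : Set V)).toHom
      (SimpleGraph.toSubgraph T hT1)), ?_, ?_⟩
    · have e1 := (SimpleGraph.Embedding.induce (G := G) (S : Set V)).toCopy.isoSubgraphMap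
        (SimpleGraph.toSubgraph T hT1)
      have e2 : (SimpleGraph.toSubgraph T hT1).coe ≃g T :=
        { toFun := fun x => x.1
          invFun := fun x => ⟨x, trivial⟩
          left_inv := fun x => rfl
          right_inv := fun x => rfl
          map_rel_iff' := by intro a b; exact Iff.rfl }
      exact (SimpleGraph.Iso.isTree_iff (e1.symm.trans e2)).mpr hT2
    · ext x
      simp
end Pool.Agent.R39.ST
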