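import Mathlib
import Pool.Agent.R39.ST.Tau

set_option autoImplicit false
set_option linter.unusedSectionVars false

/-! # Weighted counts of trees (or connected sets) and pendant gadgets -/

namespace Pool.Agent.R39.ST

open Finset
open Pool.Agent.W151.TreeRec (tau)

variable {V : Type} [Fintype V] {G : SimpleGraph V}
variable {R : Type} [CommSemiring R]

/-- the weighted count: `f = id` counts trees, `f = sgn` counts connected sets -/
noncomputable def P (f : ℕ →*₀ ℕ) (G : SimpleGraph V) (W : Finset V) (ω : V → R) : R :=
  ∑ S ∈ W.powerset, (f (tau G S) : R) * ∏ v ∈ S, ω v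

lemma sum_powerset_union {M : Type} [AddCommMonoid M] [DecidableEq V] {W Q : Finset V}
    (hd : Disjoint W Q) (F : Finset V → M) :
    ∑ X ∈ (W ∪ Q).powerset, F X = ∑ S ∈ W.powerset, ∑ T ∈ Q.powerset, F (S ∪ T) := by
  rw [← sum_product']
  symm
  refine sum_nbij' (fun p => p.1 ∪ p.2) (fun X => (X ∩ W, X ∩ Q)) ?_ ?_ ?_ ?_ ?_
  · rintro ⟨S, T⟩ h
    simp only [mem_product, mem_powerset] at h ⊢
    exact union_subset_union h.1 h.2
  · intro X _
    simp only [mem_product, mem_powerset]
    exact ⟨inter_subset_right, inter_subset_right⟩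
  · rintro ⟨S, T⟩ h
    simp only [mem_product, mem_powerset] at h
    rw [disjoint_left] at hd
    simp only [Prod.mk.injEq]
    constructor
    · ext x
      simp only [mem_inter, mem_union]
      constructor
      · rintro ⟨h1 | h1, h2⟩
        · exact h1
        · exact absurd (h.2 h1) (hd h2)
      · intro h1; exact ⟨Or.inl h1, h.1 h1⟩
    · ext x
      simp only [mem_inter, mem_union]
      constructor
      · rintro ⟨h1 | h1, h2⟩
        · exact absurd h2 (hd (h.1 h1))
        · exact h1
      · intro h1; exact ⟨Or.inr h1, h.2 h1⟩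
  · intro X h
    rw [mem_powerset] at h
    simp only
    rw [← inter_union_distrib_left]
    exact inter_eq_left.2 h
  · rintro ⟨S, T⟩ _
    rfl

/-- a gadget `Q` attached to the rest `W` at the single vertex `u` -/
theorem P_gadget [DecidableEq V] (f : ℕ →*₀ ℕ) {W Q : Finset V} {u : V} (hu : u ∈ W)
    (hd : Disjoint W Q) (hno : ∀ a ∈ W, ∀ q ∈ Q, a ≠ u → ¬ G.Adj a q) (ω : V → R) :
    P f G (W ∪ Q) ω =
      P f G W (Function.update ω u
        (ω u * ∑ T ∈ Q.powerset, (f (tau G (insert u T)) : R) * ∏ v ∈ T, ω v)) +
      P f G Q ω := by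
  set Φ : R := ∑ T ∈ Q.powerset, (f (tau G (insert u T)) : R) * ∏ v ∈ T, ω v with hΦ
  have huQ : u ∉ Q := disjoint_left.1 hd hu
  have hdis : ∀ S ∈ W.powerset, ∀ T ∈ Q.powerset, Disjoint S T := by
    intro S hS T hT
    exact disjoint_of_subset_left (mem_powerset.1 hS)
      (disjoint_of_subset_right (mem_powerset.1 hT) hd)
  -- the terms
  have hterm1 : ∀ S ∈ W.powerset, u ∈ S → ∑ T ∈ Q.powerset,
      (f (tau G (S ∪ T)) : R) * ∏ v ∈ S ∪ T, ω v = (f (tau G S) : R) * (∏ v ∈ S, ω v) * Φ := by
    intro S hS huS
    rw [hΦ, mul_sum]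
    refine sum_congr rfl (fun T hT => ?_)
    have hdT := hdis S hS T hT
    rw [prod_union hdT]
    have e : S ∪ T = S ∪ insert u T := by
      rw [union_insert, ← insert_union, insert_eq_of_mem huS]
    have h1 : tau G (S ∪ T) = tau G S * tau G (insert u T) := by
      rw [e]
      apply tau_cut huS (mem_insert_self _ _)
      · intro v hv hv'
        rcases mem_insert.1 hv' with h | h
        · exact h
        · exact absurd h (disjoint_left.1 hdT hv)
      · intro a ha b hb hau hbu
        rcases mem_insert.1 hb with h | h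
        · exact absurd h hbu
        · exact hno a (mem_powerset.1 hS ha) b (mem_powerset.1 hT h) hau
    rw [h1, map_mul]
    push_cast
    ring
  have hterm2 : ∀ S ∈ W.powerset, u ∉ S → ∑ T ∈ Q.powerset,
      (f (tau G (S ∪ T)) : R) * ∏ v ∈ S ∪ T, ω v = (f (tau G S) : R) * (∏ v ∈ S, ω v) +
        (if S = ∅ then P f G Q ω else 0) := by
    intro S hS huS
    by_cases hS0 : S = ∅
    · subst hS0
      simp only [if_true, empty_union]
      rw [tau_empty, map_zero]
      simp only [Nat.cast_zero, zero_mul, zero_add]
      rfl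
    · rw [if_neg hS0, add_zero]
      rw [sum_eq_single_of_mem ∅ (empty_mem_powerset Q)]
      · rw [union_empty]
      · intro T hT hT0
        have h1 : tau G (S ∪ T) = 0 := by
          apply tau_split (nonempty_iff_ne_empty.2 hS0) (nonempty_iff_ne_empty.2 hT0)
          · intro v hv; exact disjoint_left.1 (hdis S hS T hT) hv
          · intro a ha b hb
            exact hno a (mem_powerset.1 hS ha) b (mem_powerset.1 hT hb)
              (fun h => huS (h ▸ ha))
        rw [h1, map_zero]
        simp
  have hmain : P f G (W ∪ Q) ω = ∑ S ∈ W.powerset,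
      ((f (tau G S) : R) * (∏ v ∈ S, Function.update ω u (ω u * Φ) v) +
        (if S = ∅ then P f G Q ω else 0)) := by
    unfold P
    rw [sum_powerset_union hd]
    refine sum_congr rfl (fun S hS => ?_)
    by_cases huS : u ∈ S
    · rw [hterm1 S hS huS]
      have hS0 : S ≠ ∅ := by rintro rfl; simp at huS
      rw [if_neg hS0, add_zero, prod_update_of_mem huS, mul_assoc]
      congr 1
      rw [sdiff_singleton_eq_erase, ← mul_prod_erase S ω huS]
      ring
    · rw [hterm2 S hS huS, prod_update_of_notMem huS]
      rfl
  rw [hmain, sum_add_distrib]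
  congr 1
  rw [sum_ite_eq' W.powerset ∅]
  simp

/-- a single edge -/
lemma tau_pair [DecidableEq V] {u x : V} (hux : G.Adj u x) : tau G (insert u {x}) = 1 := by
  have hne : u ≠ x := hux.ne
  have h3 := Pool.Agent.W151.TreeRec.tau_eq G (insert u {x}) u (mem_insert_self _ _)
  rw [h3, card_eq_one]
  refine ⟨Function.update id x u, ?_⟩
  ext π
  rw [Pool.Agent.W151.TreeRec.mem_Par, mem_singleton]
  constructor
  · intro h
    funext v
    by_cases hv : v = x
    · subst hv
      obtain ⟨h5, h6⟩ := h.2.1 v (by simp) hne.symm
      rw [mem_insert, mem_singleton] at h5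
      rcases h5 with h5 | h5
      · simp [h5]
      · rw [h5] at h6; exact absurd h6 (G.loopless.irrefl _)
    · rw [Function.update_of_ne hv]
      apply h.1
      by_cases hvu : v = u
      · exact Or.inr hvu
      · left; simp [hv, hvu]
  · rintro rfl
    refine ⟨?_, ?_, ?_⟩
    · intro v hv
      have : v ≠ x := by
        rintro rfl
        rcases hv with hv | hv
        · simp at hv
        · exact hne hv.symm
      rw [Function.update_of_ne this]; rfl
    · intro v hv hvu
      have : v = x := by
        rw [mem_insert, mem_singleton] at hv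
        tauto
      subst this
      rw [Function.update_self]
      exact ⟨mem_insert_self _ _, hux.symm⟩
    · intro v hv
      rw [mem_insert, mem_singleton] at hv
      rcases hv with rfl | rfl
      · exact ⟨0, rfl⟩
      · exact ⟨1, by simp⟩

/-- one pendant vertex -/
theorem P_leaf [DecidableEq V] (f : ℕ →*₀ ℕ) {W : Finset V} {u x : V} (hu : u ∈ W)
    (hx : x ∉ W) (hux : G.Adj u x) (hno : ∀ a ∈ W, a ≠ u → ¬ G.Adj a x) (ω : V → R) :
    P f G (insert x W) ω = P f G W (Function.update ω u (ω u * (1 + ω x))) + ω x := by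
  have hd : Disjoint W {x} := by
    rw [disjoint_singleton_right]; exact hx
  have h1 : P f G {x} ω = ω x := by
    unfold P
    have : ({x} : Finset V) = insert x ∅ := rfl
    rw [this, sum_powerset_insert (notMem_empty x)]
    simp [tau_empty, tau_singleton]
  have h2 : tau G (insert u {x}) = 1 := tau_pair hux
  have e : insert x W = W ∪ {x} := by rw [union_comm]; rfl
  rw [e, P_gadget f hu hd (fun a ha q hq hau => by rw [mem_singleton.1 hq]; exact hno a ha hau) ω,
    h1]
  congr 4
  have : ({x} : Finset V) = insert x ∅ := rfl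
  rw [this, sum_powerset_insert (notMem_empty x)]
  simp only [powerset_empty, sum_singleton, prod_empty, mul_one]
  have e3 : insert u (∅ : Finset V) = {u} := rfl
  have e4 : insert x (∅ : Finset V) = {x} := rfl
  rw [e3, e4, tau_singleton, h2, map_one]
  simp

/-- many pendant vertices at `u` -/
theorem P_leaves [DecidableEq V] (f : ℕ →*₀ ℕ) {W L : Finset V} {u : V} (hu : u ∈ W)
    (hd : Disjoint W L) (hL : ∀ x ∈ L, ∀ a, G.Adj a x ↔ a = u) (ω : V → R) :
    P f G (W ∪ L) ω =
      P f G W (Function.update ω u (ω u * ∏ x ∈ L, (1 + ω x))) + ∑ x ∈ L, ω x := by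
  induction L using Finset.induction generalizing ω with
  | empty => simp
  | insert x L hx ih =>
    rw [disjoint_insert_right] at hd
    have huL : u ∉ insert x L := by
      intro h
      have := (hL u h u).2 rfl
      exact G.loopless.irrefl _ this
    have hux : u ≠ x := fun h => huL (h ▸ mem_insert_self _ _)
    have huL' : u ∉ L := fun h => huL (mem_insert_of_mem h)
    rw [union_insert, P_leaf f (mem_union_left _ hu) (u := u)]
    · rw [ih hd.2 (fun y hy a => hL y (mem_insert_of_mem hy) a)]
      rw [Function.update_idem, Function.update_self]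
      have h1 : ∀ y ∈ L, Function.update ω u (ω u * (1 + ω x)) y = ω y := by
        intro y hy
        exact Function.update_of_ne (fun (h : y = u) => huL' (h ▸ hy)) _ _
      rw [prod_congr rfl (fun y hy => by rw [h1 y hy]), sum_congr rfl h1, prod_insert hx,
        sum_insert hx, mul_assoc, add_assoc, add_comm (ω x)]
    · rw [mem_union]
      rintro (h | h)
      · exact hd.1 h
      · exact hx h
    · exact (hL x (mem_insert_self _ _) u).2 rfl
    · intro a _ hau h
      exact hau ((hL x (mem_insert_self _ _) a).1 h)

end Pool.Agent.R39.ST
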