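import Mathlib
import Pool.Agent.R39.ST.Poly

set_option autoImplicit false
set_option linter.unusedSectionVars false

/-! # Weighted counts of trees in a path and in a cycle -/

namespace Pool.Agent.R39.ST

open Finset
open Pool.Agent.W151.TreeRec (tau IsPar Par mem_Par tau_eq iter_fix)

variable {N : ℕ} {G : SimpleGraph (Fin N)}
variable {R : Type} [CommSemiring R]

/-- the graph is a cycle of length `c` on the first `c` vertices -/
def IsCyc (G : SimpleGraph (Fin N)) (c : ℕ) : Prop :=
  ∀ a b : Fin N, a.val < c → b.val < c → (G.Adj a b ↔ a.val + 1 = b.val ∨ b.val + 1 = a.val ∨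
    (a.val = 0 ∧ b.val + 1 = c) ∨ (b.val = 0 ∧ a.val + 1 = c))

def Sset (N c i j : ℕ) : Finset (Fin N) :=
  univ.filter (fun a => a.val ≤ i ∨ (c - j ≤ a.val ∧ a.val < c))

lemma mem_Sset {c i j : ℕ} {a : Fin N} :
    a ∈ Sset N c i j ↔ a.val ≤ i ∨ (c - j ≤ a.val ∧ a.val < c) := by simp [Sset]

/-- the vertices below `m` -/
def Wset (N m : ℕ) : Finset (Fin N) := univ.filter (fun a => a.val < m)

lemma mem_Wset {m : ℕ} {a : Fin N} : a ∈ Wset N m ↔ a.val < m := by simp [Wset]

def pij (N c i j : ℕ) (hc : c ≤ N) (hpos : 0 < c) : Fin N → Fin N := fun a =>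
  if a.val ≤ i then ⟨a.val - 1, by omega⟩
  else if c - j ≤ a.val ∧ a.val < c then
    (if h : a.val + 1 < c then ⟨a.val + 1, by omega⟩ else ⟨0, by omega⟩)
  else a

lemma pij_val {c i j : ℕ} (hc : c ≤ N) (hpos : 0 < c) (a : Fin N) :
    (pij N c i j hc hpos a).val = if a.val ≤ i then a.val - 1
      else if c - j ≤ a.val ∧ a.val < c then (if a.val + 1 < c then a.val + 1 else 0)
      else a.val := by
  unfold pij
  split_ifs <;> rfl

lemma pij_isPar {c i j : ℕ} (hc : c ≤ N) (h3 : 3 ≤ c) (hG : IsCyc G c) (hij : i + j < c) :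
    IsPar G (Sset N c i j) ⟨0, by omega⟩ (pij N c i j hc (by omega)) := by
  refine ⟨?_, ?_, ?_⟩
  · intro v hv
    apply Fin.ext
    rw [pij_val]
    rw [mem_Sset, Fin.ext_iff] at hv
    simp only at hv
    split_ifs <;> omega
  · intro v hv hv0
    rw [mem_Sset] at hv
    rw [Ne, Fin.ext_iff] at hv0
    simp only at hv0
    have hpv := pij_val (N := N) (c := c) (i := i) (j := j) hc (by omega) v
    have hvc : v.val < c := by omega
    have hpc : (pij N c i j hc (by omega) v).val < c := by
      rw [hpv]; split_ifs <;> omega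
    constructor
    · rw [mem_Sset, hpv]
      split_ifs <;> omega
    · rw [hG _ _ hvc hpc, hpv]
      split_ifs <;> omega
  · intro v hv
    rw [mem_Sset] at hv
    by_cases hvi : v.val ≤ i
    · refine ⟨v.val, ?_⟩
      apply Fin.ext
      have key : ∀ k ≤ v.val, ((pij N c i j hc (by omega))^[k] v).val = v.val - k := by
        intro k
        induction k with
        | zero => intro _; rfl
        | succ k ih =>
          intro hk
          rw [Function.iterate_succ_apply', pij_val, ih (by omega)]
          split_ifs <;> omega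
      have := key v.val le_rfl
      simpa using this
    · refine ⟨c - v.val, ?_⟩
      apply Fin.ext
      have key : ∀ k, v.val + k < c →
          ((pij N c i j hc (by omega))^[k] v).val = v.val + k := by
        intro k
        induction k with
        | zero => intro _; rfl
        | succ k ih =>
          intro hk
          rw [Function.iterate_succ_apply', pij_val, ih (by omega)]
          split_ifs <;> omega
      have h1 := key (c - v.val - 1) (by omega)
      have h2 : c - v.val = (c - v.val - 1) + 1 := by omega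
      rw [h2, Function.iterate_succ_apply', pij_val, h1]
      simp only
      split_ifs <;> omega

lemma pij_surj {c : ℕ} (hc : c ≤ N) (h3 : 3 ≤ c) (hG : IsCyc G c) {S : Finset (Fin N)}
    (hS : S ⊆ Wset N c) (h0 : (⟨0, by omega⟩ : Fin N) ∈ S) {π : Fin N → Fin N}
    (hπ : IsPar G S ⟨0, by omega⟩ π) :
    ∃ i j, i + j < c ∧ S = Sset N c i j ∧ π = pij N c i j hc (by omega) := by
  have hSc : ∀ v ∈ S, v.val < c := fun v hv => mem_Wset.1 (hS hv)
  -- no two-cycles
  have h2c : ∀ a ∈ S, a.val ≠ 0 → (π a).val ≠ 0 → π (π a) ≠ a := by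
    intro a ha ha0 hb0 hab
    obtain ⟨k, hk⟩ := hπ.2.2 a ha
    have key : ∀ k, π^[k] a = a ∨ π^[k] a = π a := by
      intro k
      induction k with
      | zero => left; rfl
      | succ k ih =>
        rw [Function.iterate_succ_apply']
        rcases ih with h | h
        · rw [h]; right; rfl
        · rw [h]; left; exact hab
    rcases key k with h | h
    · rw [h] at hk; exact ha0 (congrArg Fin.val hk)
    · rw [h] at hk; exact hb0 (congrArg Fin.val hk)
  -- each vertex goes down or up
  have hDU : ∀ a ∈ S, a.val ≠ 0 → π a ∈ S ∧ ((π a).val + 1 = a.val ∨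
      (π a).val = (if a.val + 1 < c then a.val + 1 else 0)) := by
    intro a ha ha0
    obtain ⟨h4, h5⟩ := hπ.2.1 a ha (fun h => ha0 (congrArg Fin.val h))
    refine ⟨h4, ?_⟩
    rw [hG _ _ (hSc a ha) (hSc _ h4)] at h5
    have h6 := hSc a ha
    have h7 := hSc _ h4
    split_ifs <;> omega
  -- D
  have hDown : ∀ a : Fin N, a ∈ S → (π a).val + 1 = a.val → 2 ≤ a.val →
      (π (π a)).val + 1 = (π a).val := by
    intro a ha hd h2
    have h4 := (hDU a ha (by omega)).1
    rcases (hDU (π a) h4 (by omega)).2 with h | h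
    · exact h
    · exfalso
      apply h2c a ha (by omega) (by omega)
      apply Fin.ext
      rw [h]
      have := hSc a ha
      split_ifs <;> omega
  have hUp : ∀ a : Fin N, a ∈ S → a.val ≠ 0 → (π a).val = a.val + 1 →
      (π (π a)).val = (if (π a).val + 1 < c then (π a).val + 1 else 0) := by
    intro a ha ha0 hd
    have h4 := (hDU a ha (by omega)).1
    rcases (hDU (π a) h4 (by omega)).2 with h | h
    · exfalso
      apply h2c a ha (by omega) (by omega)
      apply Fin.ext
      omega
    · exact h
  -- the predicates on numbers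
  let D : ℕ → Prop := fun k => ∃ a ∈ S, a.val = k ∧ (π a).val + 1 = a.val
  let U : ℕ → Prop := fun k => ∃ a ∈ S, a.val = k ∧ k ≠ 0 ∧
    (π a).val = (if a.val + 1 < c then a.val + 1 else 0)
  have hDd : ∀ k, D (k + 2) → D (k + 1) := by
    rintro k ⟨a, ha, hak, hd⟩
    refine ⟨π a, (hDU a ha (by omega)).1, by omega, hDown a ha hd (by omega)⟩
  have hUu : ∀ k, U k → k + 1 < c → U (k + 1) := by
    rintro k ⟨a, ha, hak, hk0, hu⟩ hkc
    have h5 : (π a).val = a.val + 1 := by rw [hu, if_pos (by omega)]
    exact ⟨π a, (hDU a ha (by omega)).1, by omega, by omega, hUp a ha (by omega) h5⟩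
  have hD0 : ¬ D 0 := by rintro ⟨a, _, h4, h5⟩; omega
  have hDc : ∀ k, c ≤ k → ¬ D k := by
    rintro k hk ⟨a, ha, h4, h5⟩
    have := hSc a ha
    omega
  have hUc : ∀ k, c ≤ k → ¬ U k := by
    rintro k hk ⟨a, ha, h4, h5⟩
    have := hSc a ha
    omega
  classical
  -- the end of D
  obtain ⟨i, hi⟩ : ∃ i, ∀ k, D k ↔ 1 ≤ k ∧ k ≤ i := by
    have hex : ∃ k, ¬ D (k + 1) := ⟨c, hDc _ (by omega)⟩
    refine ⟨Nat.find hex, ?_⟩
    have hspec := Nat.find_spec hex
    intro k
    constructor
    · intro hk
      have hk1 : 1 ≤ k := by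
        rcases Nat.eq_zero_or_pos k with h | h
        · rw [h] at hk; exact absurd hk hD0
        · exact h
      refine ⟨hk1, ?_⟩
      by_contra hlt
      push Not at hlt
      -- go down from k to find + 1
      have hdown : ∀ m n, D (n + 1 + m) → D (n + 1) := by
        intro m
        induction m with
        | zero => intro n h; exact h
        | succ m ih =>
          intro n h
          apply ih n
          have h8 := hDd (n + m) (by convert h using 1; omega)
          convert h8 using 1
          omega
      apply hspec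
      apply hdown (k - (Nat.find hex + 1))
      convert hk using 1
      omega
    · rintro ⟨h4, h5⟩
      by_contra h6
      obtain ⟨m, rfl⟩ : ∃ m, k = m + 1 := ⟨k - 1, by omega⟩
      exact Nat.find_min hex (m := m) (by omega) h6
  obtain ⟨l, hl1, hl⟩ : ∃ l, 1 ≤ l ∧ ∀ k, U k ↔ l ≤ k ∧ k < c := by
    have hex : ∃ k, U (k + 1) ∨ c ≤ k + 1 := ⟨c, Or.inr (by omega)⟩
    refine ⟨Nat.find hex + 1, by omega, ?_⟩
    have hspec := Nat.find_spec hex
    intro k
    constructor
    · intro hk
      have hk0 : k ≠ 0 := by
        rintro rfl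
        obtain ⟨a, _, _, h6, _⟩ := hk
        exact h6 rfl
      have hkc : k < c := by
        by_contra h; exact hUc k (by omega) hk
      refine ⟨?_, hkc⟩
      obtain ⟨m, rfl⟩ : ∃ m, k = m + 1 := ⟨k - 1, by omega⟩
      have := Nat.find_min' hex (m := m) (Or.inl hk)
      omega
    · rintro ⟨h4, h5⟩
      have h6 : U (Nat.find hex + 1) := by
        rcases hspec with h | h
        · exact h
        · omega
      have hup : ∀ m n, U n → n + m < c → U (n + m) := by
        intro m
        induction m with
        | zero => intro n h _; exact h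
        | succ m ih => intro n h h7; exact hUu (n + m) (ih n h (by omega)) (by omega)
      have := hup (k - (Nat.find hex + 1)) _ h6 (by omega)
      convert this using 1
      omega
  -- disjointness
  have hdisj : ∀ k, D k → U k → False := by
    rintro k ⟨a, ha, hak, hd⟩ ⟨b, hb, hbk, hk0, hu⟩
    have hab : a = b := Fin.ext (by omega)
    subst hab
    have := hSc a ha
    split_ifs at hu <;> omega
  have hil : i < l ∨ i = 0 ∨ c ≤ l := by
    by_contra h
    push Not at h
    exact hdisj i ((hi i).2 ⟨by omega, le_rfl⟩)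
      ((hl i).2 ⟨by omega, by
        have h7 := (hi i).2 ⟨by omega, le_rfl⟩
        by_contra h8
        exact hDc i (by omega) h7⟩)
  have hic : i < c := by
    by_contra h
    exact hDc i (by omega) ((hi i).2 ⟨by omega, le_rfl⟩)
  refine ⟨i, c - l, by omega, ?_, ?_⟩
  · ext a
    rw [mem_Sset]
    constructor
    · intro ha
      by_cases ha0 : a.val = 0
      · left; omega
      · rcases (hDU a ha ha0).2 with h | h
        · left; exact ((hi a.val).1 ⟨a, ha, rfl, h⟩).2
        · right
          have := (hl a.val).1 ⟨a, ha, rfl, ha0, h⟩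
          omega
    · intro ha
      by_cases ha0 : a.val = 0
      · have : a = ⟨0, by omega⟩ := Fin.ext ha0
        rw [this]; exact h0
      · rcases ha with h | h
        · obtain ⟨b, hb, hb1, _⟩ := (hi a.val).2 ⟨by omega, h⟩
          have : a = b := Fin.ext hb1.symm
          rw [this]; exact hb
        · obtain ⟨b, hb, hb1, _⟩ := (hl a.val).2 ⟨by omega, h.2⟩
          have : a = b := Fin.ext hb1.symm
          rw [this]; exact hb
  · funext a
    apply Fin.ext
    rw [pij_val]
    by_cases h4 : a.val ≤ i
    · rw [if_pos h4]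
      by_cases ha0 : a.val = 0
      · have : a = ⟨0, by omega⟩ := Fin.ext ha0
        rw [this, hπ.root]
        rfl
      · obtain ⟨b, hb, hb1, hb2⟩ := (hi a.val).2 ⟨by omega, h4⟩
        have : a = b := Fin.ext hb1.symm
        subst this
        omega
    · rw [if_neg h4]
      by_cases h5 : c - (c - l) ≤ a.val ∧ a.val < c
      · rw [if_pos h5]
        obtain ⟨b, hb, hb1, _, hb2⟩ := (hl a.val).2 ⟨by omega, h5.2⟩
        have : a = b := Fin.ext hb1.symm
        subst this
        exact hb2
      · rw [if_neg h5]
        have haS : a ∉ S := by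
          intro ha
          rcases (hDU a ha (by omega)).2 with h | h
          · have := (hi a.val).1 ⟨a, ha, rfl, h⟩
            omega
          · have := (hl a.val).1 ⟨a, ha, rfl, by omega, h⟩
            omega
        rw [hπ.1 a (Or.inl haS)]

lemma pij_inj {c i j i' j' : ℕ} (hc : c ≤ N) (h3 : 3 ≤ c) (hij : i + j < c)
    (hij' : i' + j' < c) (h : pij N c i j hc (by omega) = pij N c i' j' hc (by omega)) :
    i = i' ∧ j = j' := by
  have key : ∀ a : Fin N, (if a.val ≤ i then a.val - 1
      else if c - j ≤ a.val ∧ a.val < c then (if a.val + 1 < c then a.val + 1 else 0)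
      else a.val) = (if a.val ≤ i' then a.val - 1
      else if c - j' ≤ a.val ∧ a.val < c then (if a.val + 1 < c then a.val + 1 else 0)
      else a.val) := by
    intro a
    rw [← pij_val hc (by omega), ← pij_val hc (by omega), h]
  constructor
  · rcases lt_trichotomy i i' with h1 | h1 | h1
    · exfalso
      have := key ⟨i', by omega⟩
      simp only at this
      split_ifs at this <;> omega
    · exact h1
    · exfalso
      have := key ⟨i, by omega⟩
      simp only at this
      split_ifs at this <;> omega
  · rcases lt_trichotomy j j' with h1 | h1 | h1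
    · exfalso
      have := key ⟨c - j', by omega⟩
      simp only at this
      split_ifs at this <;> omega
    · exact h1
    · exfalso
      have := key ⟨c - j, by omega⟩
      simp only at this
      split_ifs at this <;> omega

/-- sum over the trees of the cycle containing `0` -/
theorem cyc_sum {M : Type} [AddCommMonoid M] {c : ℕ} (hc : c ≤ N) (h3 : 3 ≤ c)
    (hG : IsCyc G c) (g : Finset (Fin N) → M) :
    ∑ S ∈ (Wset N c).powerset.filter (fun S => (⟨0, by omega⟩ : Fin N) ∈ S), tau G S • g S =
      ∑ i ∈ range c, ∑ j ∈ range (c - i), g (Sset N c i j) := by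
  have h1 : ∑ S ∈ (Wset N c).powerset.filter (fun S => (⟨0, by omega⟩ : Fin N) ∈ S),
      tau G S • g S = ∑ q ∈ ((Wset N c).powerset.filter
        (fun S => (⟨0, by omega⟩ : Fin N) ∈ S)).sigma (fun S => Par G S ⟨0, by omega⟩),
          g q.1 := by
    rw [sum_sigma]
    refine sum_congr rfl (fun S hS => ?_)
    rw [mem_filter] at hS
    rw [tau_eq G S _ hS.2]
    simp only
    rw [sum_const]
  rw [h1, sum_sigma' (range c) (fun i => range (c - i)) (fun i j => g (Sset N c i j))]
  symm
  refine sum_bij (fun p _ => ⟨Sset N c p.1 p.2, pij N c p.1 p.2 hc (by omega)⟩) ?_ ?_ ?_ ?_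
  · rintro ⟨i, j⟩ hp
    simp only [mem_sigma, mem_range] at hp
    simp only [mem_sigma, mem_filter, mem_powerset]
    refine ⟨⟨?_, ?_⟩, ?_⟩
    · intro a ha
      rw [mem_Sset] at ha
      rw [mem_Wset]
      omega
    · rw [mem_Sset]; left; exact Nat.zero_le _
    · rw [mem_Par]; exact pij_isPar hc h3 hG (by omega)
  · rintro ⟨i, j⟩ hp ⟨i', j'⟩ hp' heq
    simp only [mem_sigma, mem_range] at hp hp'
    rw [Sigma.mk.injEq] at heq
    obtain ⟨_, h5⟩ := heq
    have h6 := eq_of_heq h5
    obtain ⟨rfl, rfl⟩ := pij_inj (i := i) (j := j) (i' := i') (j' := j') hc h3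
      (by omega) (by omega) h6
    rfl
  · rintro ⟨S, π⟩ hp
    simp only [mem_sigma, mem_filter, mem_powerset, mem_Par] at hp
    obtain ⟨i, j, hij, h4, h5⟩ := pij_surj hc h3 hG hp.1.1 hp.1.2 hp.2
    refine ⟨⟨i, j⟩, ?_, ?_⟩
    · simp only [mem_sigma, mem_range]; omega
    · simp only
      rw [h4, h5]
  · rintro ⟨i, j⟩ _
    rfl

end Pool.Agent.R39.ST
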