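import Mathlib

set_option autoImplicit false

/-! # Dual numbers over `ℕ`, and fast evaluation of the sums we need -/

namespace Pool.Agent.R39.ST

/-- `a + b ε` with `ε ^ 2 = 0` -/
@[ext] structure Du where
  a : ℕ
  b : ℕ

namespace Du

instance : Add Du := ⟨fun p q => ⟨p.a + q.a, p.b + q.b⟩⟩
instance : Mul Du := ⟨fun p q => ⟨p.a * q.a, p.a * q.b + p.b * q.a⟩⟩
instance : Zero Du := ⟨⟨0, 0⟩⟩
instance : One Du := ⟨⟨1, 0⟩⟩
instance : NatCast Du := ⟨fun n => ⟨n, 0⟩⟩

@[simp] lemma add_a (p q : Du) : (p + q).a = p.a + q.a := rfl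
@[simp] lemma add_b (p q : Du) : (p + q).b = p.b + q.b := rfl
@[simp] lemma mul_a (p q : Du) : (p * q).a = p.a * q.a := rfl
@[simp] lemma mul_b (p q : Du) : (p * q).b = p.a * q.b + p.b * q.a := rfl
@[simp] lemma zero_a : (0 : Du).a = 0 := rfl
@[simp] lemma zero_b : (0 : Du).b = 0 := rfl
@[simp] lemma one_a : (1 : Du).a = 1 := rfl
@[simp] lemma one_b : (1 : Du).b = 0 := rfl
@[simp] lemma cast_a (n : ℕ) : ((n : ℕ) : Du).a = n := rfl
@[simp] lemma cast_b (n : ℕ) : ((n : ℕ) : Du).b = 0 := rfl

instance : CommSemiring Du where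
  add_assoc p q r := by ext <;> simp [add_assoc]
  zero_add p := by ext <;> simp
  add_zero p := by ext <;> simp
  add_comm p q := by ext <;> simp [add_comm]
  mul_assoc p q r := by ext <;> simp <;> ring
  one_mul p := by ext <;> simp
  mul_one p := by ext <;> simp
  left_distrib p q r := by ext <;> simp <;> ring
  right_distrib p q r := by ext <;> simp <;> ring
  zero_mul p := by ext <;> simp
  mul_zero p := by ext <;> simp
  mul_comm p q := by ext <;> simp <;> ring
  nsmul := nsmulRec
  natCast_zero := rfl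
  natCast_succ n := by ext <;> simp

/-- `1 + ε` -/
def x : Du := ⟨1, 1⟩

lemma pow_eq (p : Du) (n : ℕ) : p ^ n = ⟨p.a ^ n, n * p.a ^ (n - 1) * p.b⟩ := by
  induction n with
  | zero => ext <;> simp
  | succ n ih =>
    rw [pow_succ, ih]
    ext
    · simp [pow_succ]
    · simp only [mul_b, Nat.add_sub_cancel]
      rcases n with _ | n
      · simp
      · simp only [Nat.add_sub_cancel, pow_succ]
        push_cast
        ring

lemma x_pow (n : ℕ) : x ^ n = ⟨1, n⟩ := by
  rw [pow_eq]; simp [x]

lemma sum_a {ι : Type} (s : Finset ι) (g : ι → Du) : (∑ i ∈ s, g i).a = ∑ i ∈ s, (g i).a := by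
  classical
  induction s using Finset.induction with
  | empty => simp
  | insert i s hi ih => rw [Finset.sum_insert hi, Finset.sum_insert hi, add_a, ih]

lemma sum_b {ι : Type} (s : Finset ι) (g : ι → Du) : (∑ i ∈ s, g i).b = ∑ i ∈ s, (g i).b := by
  classical
  induction s using Finset.induction with
  | empty => simp
  | insert i s hi ih => rw [Finset.sum_insert hi, Finset.sum_insert hi, add_b, ih]

end Du

end Pool.Agent.R39.ST
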