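import Mathlib
import Pool.Agent.R39.ST.Cycle

set_option autoImplicit false
set_option linter.unusedSectionVars false

/-! # Weighted counts of trees in a necklace -/

namespace Pool.Agent.R39.ST

open Finset
open Pool.Agent.W151.TreeRec (tau IsPar Par mem_Par tau_eq iter_fix)

variable {N : ℕ} {G : SimpleGraph (Fin N)}
variable {R : Type} [CommSemiring R]

lemma Sset_full {c i : ℕ} (hi : i < c) : Sset N c i (c - 1 - i) = Wset N c := by
  ext a
  rw [mem_Sset, mem_Wset]
  omega

lemma Sset_ne {c i j : ℕ} (hc : c ≤ N) (hij : i + j + 1 < c) : Sset N c i j ≠ Wset N c := by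
  intro h
  have h1 : (⟨i + 1, by omega⟩ : Fin N) ∈ Wset N c := by rw [mem_Wset]; simp only; omega
  rw [← h, mem_Sset] at h1
  simp only at h1
  omega

lemma Sset_inj {c i j i' j' : ℕ} (hc : c ≤ N) (hij : i + j + 1 < c) (hij' : i' + j' + 1 < c)
    (h : Sset N c i j = Sset N c i' j') : i = i' ∧ j = j' := by
  have key : ∀ a : Fin N, (a.val ≤ i ∨ (c - j ≤ a.val ∧ a.val < c)) ↔
      (a.val ≤ i' ∨ (c - j' ≤ a.val ∧ a.val < c)) := by
    intro a; rw [← mem_Sset, ← mem_Sset, h]
  constructor
  · rcases lt_trichotomy i i' with h1 | h1 | h1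
    · exfalso
      have := key ⟨i + 1, by omega⟩
      simp only at this
      omega
    · exact h1
    · exfalso
      have := key ⟨i' + 1, by omega⟩
      simp only at this
      omega
  · rcases lt_trichotomy j j' with h1 | h1 | h1
    · exfalso
      have := key ⟨c - j - 1, by omega⟩
      simp only at this
      omega
    · exact h1
    · exfalso
      have := key ⟨c - j' - 1, by omega⟩
      simp only at this
      omega

theorem cyc_sum' {M : Type} [AddCommMonoid M] {c : ℕ} (hc : c ≤ N) (h3 : 3 ≤ c)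
    (hG : IsCyc G c) (g : Finset (Fin N) → M) :
    ∑ S ∈ (Wset N c).powerset.filter (fun S => (⟨0, by omega⟩ : Fin N) ∈ S), tau G S • g S =
      ∑ i ∈ range c, ∑ j ∈ range (c - 1 - i), g (Sset N c i j) + c • g (Wset N c) := by
  rw [cyc_sum hc h3 hG]
  have h1 : ∀ i ∈ range c, ∑ j ∈ range (c - i), g (Sset N c i j) =
      ∑ j ∈ range (c - 1 - i), g (Sset N c i j) + g (Wset N c) := by
    intro i hi
    rw [mem_range] at hi
    have e : c - i = (c - 1 - i) + 1 := by omega
    rw [e, sum_range_succ, Sset_full hi]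
  rw [sum_congr rfl h1, sum_add_distrib, sum_const, card_range]

lemma zero_mem_Wset {c : ℕ} (hc : c ≤ N) (h3 : 3 ≤ c) : (⟨0, by omega⟩ : Fin N) ∈ Wset N c := by
  rw [mem_Wset]; simp only; omega

lemma tau_full {c : ℕ} (hc : c ≤ N) (h3 : 3 ≤ c) (hG : IsCyc G c) :
    tau G (Wset N c) = c := by
  have h := cyc_sum' hc h3 hG (fun S => if S = Wset N c then (1 : ℕ) else 0)
  rw [sum_eq_single_of_mem (Wset N c)] at h
  · simp only [if_true, smul_eq_mul, mul_one] at h
    rw [h, add_eq_right]
    apply sum_eq_zero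
    intro i hi
    apply sum_eq_zero
    intro j hj
    rw [mem_range] at hi hj
    rw [if_neg (Sset_ne hc (by omega))]
  · rw [mem_filter, mem_powerset]
    exact ⟨Subset.refl _, zero_mem_Wset hc h3⟩
  · intro S _ hS
    rw [if_neg hS, smul_zero]

lemma tau_le_one {c : ℕ} (hc : c ≤ N) (h3 : 3 ≤ c) (hG : IsCyc G c) {S : Finset (Fin N)}
    (hS : S ⊆ Wset N c) (h0 : (⟨0, by omega⟩ : Fin N) ∈ S) (hne : S ≠ Wset N c) :
    tau G S ≤ 1 := by
  have h := cyc_sum' hc h3 hG (fun T => if T = S then (1 : ℕ) else 0)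
  rw [sum_eq_single_of_mem S (by rw [mem_filter, mem_powerset]; exact ⟨hS, h0⟩)
    (fun T _ hT => by rw [if_neg hT, smul_zero])] at h
  simp only [if_true, smul_eq_mul, mul_one] at h
  rw [h, if_neg (Ne.symm hne), mul_zero, add_zero,
    sum_sigma' (range c) (fun i => range (c - 1 - i))
      (fun i j => if Sset N c i j = S then (1 : ℕ) else 0)]
  rw [← card_filter, card_le_one]
  rintro ⟨i, j⟩ hp ⟨i', j'⟩ hp'
  simp only [mem_filter, mem_sigma, mem_range] at hp hp'
  obtain ⟨rfl, rfl⟩ := Sset_inj (N := N) (c := c) (i := i) (j := j) (i' := i') (j' := j') hc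
    (by omega) (by omega) (hp.2.trans hp'.2.symm)
  rfl

theorem cyc_sum_f {c : ℕ} (hc : c ≤ N) (h3 : 3 ≤ c) (hG : IsCyc G c) (f : ℕ →*₀ ℕ)
    (g : Finset (Fin N) → R) :
    ∑ S ∈ (Wset N c).powerset.filter (fun S => (⟨0, by omega⟩ : Fin N) ∈ S),
      (f (tau G S) : R) * g S =
      ∑ i ∈ range c, ∑ j ∈ range (c - 1 - i), g (Sset N c i j) +
        (f c : R) * g (Wset N c) := by
  have h := cyc_sum' hc h3 hG (fun S => if S = Wset N c then (0 : R) else g S)
  simp only [if_true, smul_zero, add_zero] at h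
  have h1 : ∀ i ∈ range c, ∑ j ∈ range (c - 1 - i), g (Sset N c i j) =
      ∑ j ∈ range (c - 1 - i), (if Sset N c i j = Wset N c then (0 : R)
        else g (Sset N c i j)) := by
    intro i hi
    refine sum_congr rfl (fun j hj => ?_)
    rw [mem_range] at hi hj
    rw [if_neg (Sset_ne hc (by omega))]
  rw [sum_congr rfl h1, ← h]
  have hW : Wset N c ∈ (Wset N c).powerset.filter
      (fun S => (⟨0, by omega⟩ : Fin N) ∈ S) := by
    rw [mem_filter, mem_powerset]
    exact ⟨Subset.refl _, zero_mem_Wset hc h3⟩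
  rw [← add_sum_erase _ _ hW, ← add_sum_erase _ _ hW, if_pos rfl, smul_zero, zero_add,
    tau_full hc h3 hG, add_comm]
  congr 1
  refine sum_congr rfl (fun S hS => ?_)
  rw [mem_erase, mem_filter, mem_powerset] at hS
  rw [if_neg hS.1]
  have h4 := tau_le_one hc h3 hG hS.2.1 hS.2.2 hS.1
  have h5 : f (tau G S) = tau G S := by
    rcases Nat.lt_or_ge (tau G S) 1 with h6 | h6
    · have : tau G S = 0 := by omega
      rw [this, map_zero]
    · have : tau G S = 1 := by omega
      rw [this, map_one]
  rw [h5, nsmul_eq_mul]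

/-- running sums for a path -/
def cur (w : ℕ → R) : ℕ → R
  | 0 => 0
  | m + 1 => (cur w m + 1) * w (m + 1)

def tot (w : ℕ → R) : ℕ → R
  | 0 => 0
  | m + 1 => tot w m + cur w (m + 1)

lemma cur_congr {w w' : ℕ → R} (m : ℕ) (h : ∀ k, 1 ≤ k → k ≤ m → w k = w' k) :
    cur w m = cur w' m := by
  induction m with
  | zero => rfl
  | succ m ih =>
    rw [cur, cur, ih (fun k h1 h2 => h k h1 (by omega)), h (m + 1) (by omega) le_rfl]

lemma tot_congr {w w' : ℕ → R} (m : ℕ) (h : ∀ k, 1 ≤ k → k ≤ m → w k = w' k) :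
    tot w m = tot w' m := by
  induction m with
  | zero => rfl
  | succ m ih =>
    rw [tot, tot, ih (fun k h1 h2 => h k h1 (by omega)), cur_congr (m + 1) h]

def Pset (N m : ℕ) : Finset (Fin N) := univ.filter (fun a => 1 ≤ a.val ∧ a.val ≤ m)

lemma mem_Pset {m : ℕ} {a : Fin N} : a ∈ Pset N m ↔ 1 ≤ a.val ∧ a.val ≤ m := by simp [Pset]

theorem P_path {c : ℕ} (hc : c ≤ N) (hG : IsCyc G c) (f : ℕ →*₀ ℕ) :
    ∀ (m : ℕ) (_ : m < c) (w : ℕ → R), P f G (Pset N m) (fun a => w a.val) = tot w m := by
  intro m
  induction m with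
  | zero =>
    intro _ w
    have : Pset N 0 = ∅ := by
      rw [eq_empty_iff_forall_notMem]
      intro a ha
      rw [mem_Pset] at ha
      omega
    rw [this]
    unfold P
    simp [tau_empty, tot]
  | succ m ih =>
    intro hm w
    have hx : (⟨m + 1, by omega⟩ : Fin N) ∉ Pset N m := by
      rw [mem_Pset]; simp
    have e : Pset N (m + 1) = insert ⟨m + 1, by omega⟩ (Pset N m) := by
      ext a
      rw [mem_insert, mem_Pset, mem_Pset, Fin.ext_iff]
      simp only
      omega
    rcases Nat.eq_zero_or_pos m with h0 | h0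
    · subst h0
      have : Pset N 0 = ∅ := by
        rw [eq_empty_iff_forall_notMem]
        intro a ha
        rw [mem_Pset] at ha
        omega
      rw [e, this]
      unfold P
      rw [sum_powerset_insert (notMem_empty _)]
      have e2 : insert (⟨0 + 1, by omega⟩ : Fin N) ∅ =
        ({⟨0 + 1, by omega⟩} : Finset (Fin N)) := rfl
      simp only [powerset_empty, sum_singleton]
      rw [e2, tau_empty, tau_singleton]
      simp [tot, cur]
    · rw [e, P_leaf (u := ⟨m, by omega⟩) f (by rw [mem_Pset]; simp only; omega) hx]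
      · have h1 : Function.update (fun a : Fin N => w a.val) ⟨m, by omega⟩
            (w m * (1 + w (m + 1))) =
            (fun a : Fin N => Function.update w m (w m * (1 + w (m + 1))) a.val) := by
          funext a
          by_cases ha : a = ⟨m, by omega⟩
          · subst ha
            simp
          · have ha' : a.val ≠ m := fun h => ha (Fin.ext h)
            rw [Function.update_of_ne ha, Function.update_of_ne ha']
        simp only
        rw [h1, ih (by omega)]
        obtain ⟨n, rfl⟩ : ∃ n, m = n + 1 := ⟨m - 1, by omega⟩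
        have h2 : tot (Function.update w (n + 1) (w (n + 1) * (1 + w (n + 1 + 1)))) n =
            tot w n := tot_congr n (fun k _ hk => Function.update_of_ne (by omega) _ _)
        have h3 : cur (Function.update w (n + 1) (w (n + 1) * (1 + w (n + 1 + 1)))) n =
            cur w n := cur_congr n (fun k _ hk => Function.update_of_ne (by omega) _ _)
        simp only [tot, cur]
        rw [h2, h3, Function.update_self]
        ring
      · rw [hG]
        · left; rfl
        · simp only; omega
        · simp only; omega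
      · intro a ha hau
        rw [mem_Pset] at ha
        rw [Ne, Fin.ext_iff] at hau
        simp only at hau
        rw [hG _ _ (by omega) (by simp only; omega)]
        simp only
        omega

/-- the product over `S_{ij}` -/
lemma prod_Sset {c i j : ℕ} (hc : c ≤ N) (hij : i + j < c) (w : ℕ → R) :
    ∏ a ∈ Sset N c i j, w a.val =
      w 0 * (∏ k ∈ range i, w (k + 1)) * ∏ k ∈ range j, w (c - 1 - k) := by
  have e : (Sset N c i j).map Fin.valEmbedding = range (i + 1) ∪ Ico (c - j) c := by
    ext k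
    rw [mem_map, mem_union, mem_range, mem_Ico]
    constructor
    · rintro ⟨a, ha, rfl⟩
      rw [mem_Sset] at ha
      simp only [Fin.valEmbedding_apply]
      omega
    · intro hk
      refine ⟨⟨k, by omega⟩, ?_, rfl⟩
      rw [mem_Sset]
      simp only
      omega
  have h1 : ∏ a ∈ Sset N c i j, w a.val = ∏ k ∈ (Sset N c i j).map Fin.valEmbedding, w k := by
    rw [prod_map]; rfl
  rw [h1, e, prod_union]
  · rw [prod_range_succ', mul_comm (∏ k ∈ range i, w (k + 1))]
    congr 1
    rw [prod_Ico_eq_prod_range]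
    have e2 : c - (c - j) = j := by omega
    rw [e2, ← prod_range_reflect]
    refine prod_congr rfl (fun k hk => ?_)
    rw [mem_range] at hk
    congr 1
    omega
  · rw [disjoint_left]
    intro k hk hk'
    rw [mem_range] at hk
    rw [mem_Ico] at hk'
    omega

theorem P_cycle {c : ℕ} (hc : c ≤ N) (h3 : 3 ≤ c) (hG : IsCyc G c) (f : ℕ →*₀ ℕ)
    (w : ℕ → R) :
    P f G (Wset N c) (fun a => w a.val) = tot w (c - 1) +
      (∑ i ∈ range c, ∑ j ∈ range (c - 1 - i),
        w 0 * (∏ k ∈ range i, w (k + 1)) * ∏ k ∈ range j, w (c - 1 - k)) +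
      (f c : R) * (w 0 * ∏ k ∈ range (c - 1), w (k + 1)) := by
  have h1 : (Wset N c).powerset.filter (fun S => ¬ (⟨0, by omega⟩ : Fin N) ∈ S) =
      (Pset N (c - 1)).powerset := by
    ext S
    rw [mem_filter, mem_powerset, mem_powerset]
    constructor
    · rintro ⟨h4, h5⟩ a ha
      rw [mem_Pset]
      have h6 := mem_Wset.1 (h4 ha)
      have h7 : a.val ≠ 0 := by
        intro h
        apply h5
        have : a = ⟨0, by omega⟩ := Fin.ext h
        rw [← this]; exact ha
      omega
    · intro h4
      refine ⟨?_, ?_⟩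
      · intro a ha
        have := mem_Pset.1 (h4 ha)
        rw [mem_Wset]
        omega
      · intro h5
        have := mem_Pset.1 (h4 h5)
        simp at this
  unfold P
  rw [← sum_filter_add_sum_filter_not (Wset N c).powerset
    (fun S => (⟨0, by omega⟩ : Fin N) ∈ S), cyc_sum_f hc h3 hG, h1]
  have h2 := P_path hc hG f (c - 1) (by omega) w
  unfold P at h2
  rw [h2]
  have h5 : ∏ a ∈ Wset N c, w a.val = w 0 * ∏ k ∈ range (c - 1), w (k + 1) := by
    have h6 := prod_Sset (N := N) (c := c) (i := c - 1) (j := 0) hc (by omega) w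
    have h7 : Sset N c (c - 1) 0 = Wset N c := by
      have := Sset_full (N := N) (c := c) (i := c - 1) (by omega)
      rwa [Nat.sub_self] at this
    rw [h7] at h6
    rw [h6]
    simp
  rw [h5]
  have h8 : ∀ i ∈ range c, ∑ j ∈ range (c - 1 - i), ∏ a ∈ Sset N c i j, w a.val =
      ∑ j ∈ range (c - 1 - i), w 0 * (∏ k ∈ range i, w (k + 1)) *
        ∏ k ∈ range j, w (c - 1 - k) := by
    intro i hi
    refine sum_congr rfl (fun j hj => ?_)
    rw [mem_range] at hi hj
    exact prod_Sset hc (by omega) w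
  rw [sum_congr rfl h8]
  ring

end Pool.Agent.R39.ST
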