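import Mathlib
import Pool.Agent.R39.ST.Neck
import Pool.Agent.R39.ST.Dual

set_option autoImplicit false
set_option linter.unusedSectionVars false

/-! # The necklace graphs -/

namespace Pool.Agent.R39.ST

open Finset
open Pool.Agent.W151.TreeRec (tau IsPar Par mem_Par tau_eq iter_fix)

variable {R : Type} [CommSemiring R]

/-- the vertex to which the vertex `b ≥ c` is attached -/
def att (c h l b : ℕ) : ℕ := if b < c + l then h else if b < c + 2 * l then c - h else 0

def nadj (c h l : ℕ) (a b : ℕ) : Prop :=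
  (a < c ∧ b < c ∧ (a + 1 = b ∨ b + 1 = a ∨ (a = 0 ∧ b + 1 = c) ∨ (b = 0 ∧ a + 1 = c))) ∨
  (a < c ∧ c ≤ b ∧ a = att c h l b) ∨ (b < c ∧ c ≤ a ∧ b = att c h l a) ∨
  (c + 2 * l ≤ a ∧ c + 2 * l ≤ b)

lemma nadj_symm {c h l a b : ℕ} (hab : nadj c h l a b) : nadj c h l b a := by
  unfold nadj at *
  omega

/-- A cycle `0, ..., c - 1`, with `l` pendant vertices at `h` and at `c - h`, and `k` further
vertices forming a clique together with `0`. -/
def neck (c h l k : ℕ) : SimpleGraph (Fin (c + 2 * l + k)) where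
  Adj a b := a.val ≠ b.val ∧ nadj c h l a.val b.val
  symm := ⟨fun _ _ hab => ⟨hab.1.symm, nadj_symm hab.2⟩⟩
  loopless := ⟨fun _ ha => ha.1 rfl⟩

lemma neck_adj {c h l k : ℕ} {a b : Fin (c + 2 * l + k)} :
    (neck c h l k).Adj a b ↔ a.val ≠ b.val ∧ nadj c h l a.val b.val := Iff.rfl

lemma neck_isCyc {c h l k : ℕ} (h3 : 3 ≤ c) : IsCyc (neck c h l k) c := by
  intro a b ha hb
  rw [neck_adj, nadj]
  omega

/-- the leaves at `h`, the leaves at `c - h`, and the rest -/
def L1 (c l k : ℕ) : Finset (Fin (c + 2 * l + k)) :=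
  univ.filter (fun a => c ≤ a.val ∧ a.val < c + l)
def L2 (c l k : ℕ) : Finset (Fin (c + 2 * l + k)) :=
  univ.filter (fun a => c + l ≤ a.val ∧ a.val < c + 2 * l)
def QQ (c l k : ℕ) : Finset (Fin (c + 2 * l + k)) :=
  univ.filter (fun a => c + 2 * l ≤ a.val)

lemma card_L {c l k : ℕ} (p q : ℕ) (hq : p + l = q) (hq' : q ≤ c + 2 * l + k) :
    (univ.filter (fun a : Fin (c + 2 * l + k) => p ≤ a.val ∧ a.val < q)).card = l := by
  have e : (univ.filter (fun a : Fin (c + 2 * l + k) => p ≤ a.val ∧ a.val < q)).map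
      Fin.valEmbedding = Ico p q := by
    ext j
    rw [mem_map, mem_Ico]
    constructor
    · rintro ⟨a, ha, rfl⟩
      rw [mem_filter] at ha
      exact ha.2
    · intro hj
      exact ⟨⟨j, by omega⟩, by rw [mem_filter]; exact ⟨mem_univ _, hj⟩, rfl⟩
  rw [← card_map Fin.valEmbedding, e, Nat.card_Ico]
  omega

/-- the weights on the cycle -/
def wt (c h l : ℕ) (x Φ : R) : ℕ → R := fun n =>
  if n = 0 then x * Φ else if n = h ∨ n = c - h then x * (1 + x) ^ l else x

theorem P_neck {c h l k : ℕ} (h3 : 3 ≤ c) (h1 : 1 ≤ h) (h2 : 2 * h < c) (f : ℕ →*₀ ℕ)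
    (x : R) :
    P f (neck c h l k) univ (fun _ => x) =
      P f (neck c h l k) (Wset _ c) (fun a => wt c h l x
        (∑ T ∈ (QQ c l k).powerset,
          (f (tau (neck c h l k) (insert ⟨0, by omega⟩ T)) : R) * x ^ T.card) a.val) +
      (2 * l : ℕ) * x + P f (neck c h l k) (QQ c l k) (fun _ => x) := by
  set G := neck c h l k with hG
  set z : Fin (c + 2 * l + k) := ⟨0, by omega⟩ with hz
  set vh : Fin (c + 2 * l + k) := ⟨h, by omega⟩ with hvh
  set vc : Fin (c + 2 * l + k) := ⟨c - h, by omega⟩ with hvc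
  set W := Wset (c + 2 * l + k) c with hW
  have e : (univ : Finset (Fin (c + 2 * l + k))) =
      ((W ∪ L1 c l k) ∪ L2 c l k) ∪ QQ c l k := by
    ext a
    simp only [mem_univ, mem_union, hW, mem_Wset, L1, L2, QQ, mem_filter, true_and, true_iff]
    omega
  have hzW : z ∈ W := by rw [hW, mem_Wset, hz]; simp only; omega
  have hhW : vh ∈ W := by rw [hW, mem_Wset, hvh]; simp only; omega
  have hcW : vc ∈ W := by rw [hW, mem_Wset, hvc]; simp only; omega
  rw [e, P_gadget f (u := z) (W := (W ∪ L1 c l k) ∪ L2 c l k)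
    (mem_union_left _ (mem_union_left _ hzW))]
  rotate_left
  · rw [disjoint_left]
    intro a ha
    simp only [mem_union, hW, mem_Wset, L1, L2, mem_filter, mem_univ, true_and] at ha
    simp only [QQ, mem_filter, mem_univ, true_and]
    omega
  · intro a ha q hq haz
    simp only [mem_union, hW, mem_Wset, L1, L2, mem_filter, mem_univ, true_and] at ha
    simp only [QQ, mem_filter, mem_univ, true_and] at hq
    rw [Ne, Fin.ext_iff, hz] at haz
    simp only at haz
    rw [hG, neck_adj, nadj, att, att]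
    split_ifs <;> omega
  set Φ : R := ∑ T ∈ (QQ c l k).powerset,
          (f (tau G (insert z T)) : R) * x ^ T.card with hΦ
  have hΦ' : (∑ T ∈ (QQ c l k).powerset,
      (f (tau G (insert z T)) : R) * ∏ v ∈ T, (fun _ : Fin (c + 2 * l + k) => x) v) = Φ := by
    rw [hΦ]
    refine sum_congr rfl (fun T _ => ?_)
    rw [prod_const]
  rw [hΦ', P_leaves f (u := vc) (W := W ∪ L1 c l k) (L := L2 c l k)
    (mem_union_left _ hcW)]
  rotate_left
  · rw [disjoint_left]
    intro a ha
    simp only [mem_union, hW, mem_Wset, L1, mem_filter, mem_univ, true_and] at ha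
    simp only [L2, mem_filter, mem_univ, true_and]
    omega
  · intro b hb a
    simp only [L2, mem_filter, mem_univ, true_and] at hb
    rw [hG, neck_adj, nadj, att, att, Fin.ext_iff, hvc]
    simp only
    split_ifs <;> omega
  rw [P_leaves f (u := vh) (W := W) (L := L1 c l k) hhW]
  rotate_left
  · rw [disjoint_left]
    intro a ha
    simp only [hW, mem_Wset] at ha
    simp only [L1, mem_filter, mem_univ, true_and]
    omega
  · intro b hb a
    simp only [L1, mem_filter, mem_univ, true_and] at hb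
    rw [hG, neck_adj, nadj, att, att, Fin.ext_iff, hvh]
    simp only
    split_ifs <;> omega
  have hzh : vh ≠ z := by rw [hvh, hz, Ne, Fin.ext_iff]; simp only; omega
  have hzc : vc ≠ z := by rw [hvc, hz, Ne, Fin.ext_iff]; simp only; omega
  have hhc : vh ≠ vc := by rw [hvh, hvc, Ne, Fin.ext_iff]; simp only; omega
  -- weights on the leaves
  have hL2 : ∀ a ∈ L2 c l k, Function.update (fun _ : Fin (c + 2 * l + k) => x) z (x * Φ) a
      = x := by
    intro a ha
    simp only [L2, mem_filter, mem_univ, true_and] at ha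
    apply Function.update_of_ne
    rw [hz, Ne, Fin.ext_iff]; simp only; omega
  have hL1 : ∀ a ∈ L1 c l k, Function.update (Function.update
      (fun _ : Fin (c + 2 * l + k) => x) z (x * Φ)) vc (Function.update
      (fun _ : Fin (c + 2 * l + k) => x) z (x * Φ) vc * (1 + x) ^ l) a = x := by
    intro a ha
    simp only [L1, mem_filter, mem_univ, true_and] at ha
    rw [Function.update_of_ne, Function.update_of_ne]
    · rw [hz, Ne, Fin.ext_iff]; simp only; omega
    · rw [hvc, Ne, Fin.ext_iff]; simp only; omega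
  have hc1 : (L1 c l k).card = l := card_L c (c + l) rfl (by omega)
  have hc2 : (L2 c l k).card = l := card_L (c + l) (c + 2 * l) (by omega) (by omega)
  have hp2 : ∏ a ∈ L2 c l k, (1 + Function.update (fun _ : Fin (c + 2 * l + k) => x) z
      (x * Φ) a) = (1 + x) ^ l := by
    rw [prod_congr rfl (fun a ha => by rw [hL2 a ha]), prod_const, hc2]
  have hs2 : ∑ a ∈ L2 c l k, Function.update (fun _ : Fin (c + 2 * l + k) => x) z
      (x * Φ) a = (l : R) * x := by
    rw [sum_congr rfl hL2, sum_const, hc2, nsmul_eq_mul]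
  rw [hp2, hs2]
  have hp1 : ∏ a ∈ L1 c l k, (1 + Function.update (Function.update
      (fun _ : Fin (c + 2 * l + k) => x) z (x * Φ)) vc (Function.update
      (fun _ : Fin (c + 2 * l + k) => x) z (x * Φ) vc * (1 + x) ^ l) a) = (1 + x) ^ l := by
    rw [prod_congr rfl (fun a ha => by rw [hL1 a ha]), prod_const, hc1]
  have hs1 : ∑ a ∈ L1 c l k, Function.update (Function.update
      (fun _ : Fin (c + 2 * l + k) => x) z (x * Φ)) vc (Function.update
      (fun _ : Fin (c + 2 * l + k) => x) z (x * Φ) vc * (1 + x) ^ l) a = (l : R) * x := by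
    rw [sum_congr rfl hL1, sum_const, hc1, nsmul_eq_mul]
  rw [hp1, hs1]
  have hfun : (Function.update (Function.update (Function.update
      (fun _ : Fin (c + 2 * l + k) => x) z (x * Φ)) vc (Function.update
      (fun _ : Fin (c + 2 * l + k) => x) z (x * Φ) vc * (1 + x) ^ l)) vh
      (Function.update (Function.update
      (fun _ : Fin (c + 2 * l + k) => x) z (x * Φ)) vc (Function.update
      (fun _ : Fin (c + 2 * l + k) => x) z (x * Φ) vc * (1 + x) ^ l) vh * (1 + x) ^ l)) =
      (fun a => wt c h l x Φ a.val) := by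
    funext a
    by_cases ha0 : a = z
    · rw [Function.update_of_ne (by rw [ha0]; exact hzh.symm),
        Function.update_of_ne (by rw [ha0]; exact hzc.symm), ha0, Function.update_self, wt, hz]
      simp
    · have ha0' : a.val ≠ 0 := fun h => ha0 (Fin.ext h)
      by_cases hah : a = vh
      · rw [hah, Function.update_self, Function.update_of_ne hhc, Function.update_of_ne hzh, wt,
          hvh]
        simp only
        rw [if_neg (by omega), if_pos (Or.inl trivial)]
      · have hah' : a.val ≠ h := fun h => hah (Fin.ext h)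
        rw [Function.update_of_ne hah]
        by_cases hac : a = vc
        · rw [hac, Function.update_self, Function.update_of_ne hzc, wt, hvc]
          simp only
          rw [if_neg (by omega), if_pos (Or.inr trivial)]
        · have hac' : a.val ≠ c - h := fun h => hac (Fin.ext h)
          rw [Function.update_of_ne hac, Function.update_of_ne ha0, wt, if_neg ha0',
            if_neg (by omega)]
  rw [hfun]
  push_cast
  ring

/-- the product of the first weights -/
def al (c h l : ℕ) (x : R) (i : ℕ) : R :=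
  (1 + x) ^ (l * ((if h ≤ i then 1 else 0) + (if c - h ≤ i then 1 else 0))) * x ^ i

lemma prod_wt {c h l : ℕ} (h1 : 1 ≤ h) (h2 : 2 * h < c) (x Φ : R) (i : ℕ) :
    ∏ k ∈ range i, wt c h l x Φ (k + 1) = al c h l x i := by
  induction i with
  | zero =>
    rw [al, if_neg (by omega), if_neg (by omega)]
    simp
  | succ i ih =>
    rw [prod_range_succ, ih, wt, if_neg (by omega), al, al]
    by_cases e1 : i + 1 = h
    · rw [if_pos (Or.inl e1), if_neg (by omega), if_neg (by omega), if_pos (by omega),
        if_neg (by omega)]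
      ring
    · by_cases e2 : i + 1 = c - h
      · rw [if_pos (Or.inr e2), if_pos (by omega), if_neg (by omega), if_pos (by omega),
          if_pos (by omega)]
        ring
      · rw [if_neg (show ¬ (i + 1 = h ∨ i + 1 = c - h) by omega)]
        have e3 : (h ≤ i + 1) = (h ≤ i) := by apply propext; omega
        have e4 : (c - h ≤ i + 1) = (c - h ≤ i) := by apply propext; omega
        simp only [e3, e4]
        ring

lemma wt_symm {c h l : ℕ} (h1 : 1 ≤ h) (h2 : 2 * h < c) (x Φ : R) {k : ℕ} (hk : 1 ≤ k)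
    (hkc : k < c) : wt c h l x Φ (c - k) = wt c h l x Φ k := by
  unfold wt
  rw [if_neg (show ¬ c - k = 0 by omega), if_neg (show ¬ k = 0 by omega)]
  have : (c - k = h ∨ c - k = c - h) = (k = h ∨ k = c - h) := by apply propext; omega
  simp only [this]

/-- the value for the cycle -/
theorem P_neck_cycle {c h l k : ℕ} (h3 : 3 ≤ c) (h1 : 1 ≤ h) (h2 : 2 * h < c)
    (f : ℕ →*₀ ℕ) (x Φ : R) :
    P f (neck c h l k) (Wset _ c) (fun a => wt c h l x Φ a.val) =
      tot (wt c h l x Φ) (c - 1) +
      x * Φ * (∑ i ∈ range (c - 1), al c h l x (c - 2 - i) *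
        ∑ j ∈ range (i + 1), al c h l x j) +
      (f c : R) * (x * Φ * al c h l x (c - 1)) := by
  rw [P_cycle (by omega) h3 (neck_isCyc h3) f, prod_wt h1 h2]
  have e0 : wt c h l x Φ 0 = x * Φ := by simp [wt]
  rw [e0]
  congr 2
  have e1 : ∀ i ∈ range c, ∑ j ∈ range (c - 1 - i), x * Φ *
      (∏ k ∈ range i, wt c h l x Φ (k + 1)) * ∏ k ∈ range j, wt c h l x Φ (c - 1 - k) =
      x * Φ * (al c h l x i * ∑ j ∈ range (c - 1 - i), al c h l x j) := by
    intro i hi
    rw [mem_range] at hi
    rw [mul_sum, mul_sum]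
    refine sum_congr rfl (fun j hj => ?_)
    rw [mem_range] at hj
    rw [prod_wt h1 h2]
    have e2 : ∏ k ∈ range j, wt c h l x Φ (c - 1 - k) = ∏ k ∈ range j, wt c h l x Φ (k + 1) := by
      refine prod_congr rfl (fun k hk => ?_)
      rw [mem_range] at hk
      have e3 : c - 1 - k = c - (k + 1) := by omega
      rw [e3, wt_symm h1 h2 x Φ (by omega) (by omega)]
    rw [e2, prod_wt h1 h2]
    ring
  rw [sum_congr rfl e1, ← mul_sum]
  congr 1
  obtain ⟨n, rfl⟩ : ∃ n, c = n + 1 := ⟨c - 1, by omega⟩
  rw [sum_range_succ]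
  have e4 : n + 1 - 1 - n = 0 := by omega
  rw [e4, range_zero, sum_empty, mul_zero, add_zero]
  have e5 : n + 1 - 1 = n := by omega
  rw [e5, ← sum_range_reflect]
  refine sum_congr rfl (fun i hi => ?_)
  rw [mem_range] at hi
  have e6 : n - (n - 1 - i) = i + 1 := by omega
  have e7 : n + 1 - 2 - i = n - 1 - i := by omega
  rw [e6, e7]

end Pool.Agent.R39.ST
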