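import Mathlib
import Pool.Agent.R39.ST.NeckG

set_option autoImplicit false
set_option linter.unusedSectionVars false

/-! # Evaluating the necklace sums -/

namespace Pool.Agent.R39.ST

open Finset

def alN (c h l i : ℕ) : ℕ × ℕ :=
  let k := (if h ≤ i then 1 else 0) + (if c - h ≤ i then 1 else 0)
  (2 ^ (l * k), i * 2 ^ (l * k) + l * k * 2 ^ (l * k - 1))

lemma al_eval (c h l i : ℕ) : al c h l Du.x i = ⟨(alN c h l i).1, (alN c h l i).2⟩ := by
  rw [al, Du.x_pow, Du.pow_eq]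
  have e : (1 + Du.x) = (⟨2, 1⟩ : Du) := rfl
  rw [e]
  simp only [alN]
  ext
  · simp
  · simp only [Du.mul_b]
    ring

def wtN (c h l n : ℕ) : ℕ × ℕ :=
  if n = h ∨ n = c - h then (2 ^ l, 2 ^ l + l * 2 ^ (l - 1)) else (1, 1)

lemma wt_eval (c h l : ℕ) (Φ : Du) (n : ℕ) (hn : n ≠ 0) :
    wt c h l Du.x Φ n = ⟨(wtN c h l n).1, (wtN c h l n).2⟩ := by
  rw [wt, if_neg hn, wtN]
  split_ifs with h1
  · rw [Du.pow_eq]
    have e : (1 + Du.x) = (⟨2, 1⟩ : Du) := rfl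
    rw [e]
    ext
    · simp [Du.x]
    · simp only [Du.mul_b, Du.x]
      ring
  · rfl

def loopT (c h l : ℕ) : ℕ → ℕ × ℕ × ℕ × ℕ
  | 0 => (0, 0, 0, 0)
  | m + 1 =>
    let s := loopT c h l m
    let w := wtN c h l (m + 1)
    let c1 := (s.1 + 1) * w.1
    let c2 := (s.1 + 1) * w.2 + s.2.1 * w.1
    (c1, c2, s.2.2.1 + c1, s.2.2.2 + c2)

lemma loopT_eval (c h l : ℕ) (Φ : Du) (m : ℕ) :
    cur (wt c h l Du.x Φ) m = ⟨(loopT c h l m).1, (loopT c h l m).2.1⟩ ∧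
    tot (wt c h l Du.x Φ) m = ⟨(loopT c h l m).2.2.1, (loopT c h l m).2.2.2⟩ := by
  induction m with
  | zero => exact ⟨rfl, rfl⟩
  | succ m ih =>
    obtain ⟨h1, h2⟩ := ih
    have h3 : cur (wt c h l Du.x Φ) (m + 1) =
        ⟨(loopT c h l (m + 1)).1, (loopT c h l (m + 1)).2.1⟩ := by
      rw [cur, h1, wt_eval c h l Φ (m + 1) (by omega)]
      simp only [loopT]
      ext
      · simp
      · simp
    refine ⟨h3, ?_⟩
    rw [tot, h2, h3]
    simp only [loopT]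
    ext
    · simp
    · simp

def loopD (c h l : ℕ) : ℕ → ℕ × ℕ × ℕ × ℕ
  | 0 => (0, 0, 0, 0)
  | m + 1 =>
    let s := loopD c h l m
    let b := alN c h l m
    let a := alN c h l (c - 2 - m)
    let p := s.1 + b.1
    let q := s.2.1 + b.2
    (p, q, s.2.2.1 + a.1 * p, s.2.2.2 + (a.1 * q + a.2 * p))

lemma loopD_eval (c h l : ℕ) (m : ℕ) :
    (∑ j ∈ range m, al c h l Du.x j = ⟨(loopD c h l m).1, (loopD c h l m).2.1⟩) ∧
    (∑ i ∈ range m, al c h l Du.x (c - 2 - i) * ∑ j ∈ range (i + 1), al c h l Du.x j =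
      ⟨(loopD c h l m).2.2.1, (loopD c h l m).2.2.2⟩) := by
  induction m with
  | zero => exact ⟨by simp only [range_zero, sum_empty]; rfl,
      by simp only [range_zero, sum_empty]; rfl⟩
  | succ m ih =>
    obtain ⟨h1, h2⟩ := ih
    have h3 : ∑ j ∈ range (m + 1), al c h l Du.x j =
        ⟨(loopD c h l (m + 1)).1, (loopD c h l (m + 1)).2.1⟩ := by
      rw [sum_range_succ, h1, al_eval]
      simp only [loopD]
      ext
      · simp
      · simp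
    refine ⟨h3, ?_⟩
    rw [sum_range_succ, h2, h3, al_eval]
    simp only [loopD]
    ext
    · simp
    · simp

/-- the value, given the gadget polynomial `Φ`, the extra term and `f c` -/
def neckN (c h l : ℕ) (Φ ext : ℕ × ℕ) (fc : ℕ) : ℕ × ℕ :=
  let T := loopT c h l (c - 1)
  let D := loopD c h l (c - 1)
  let A := alN c h l (c - 1)
  let u2 := Φ.1 + Φ.2
  (T.2.2.1 + Φ.1 * D.2.2.1 + fc * (Φ.1 * A.1) + 2 * l + ext.1,
    T.2.2.2 + (Φ.1 * D.2.2.2 + u2 * D.2.2.1) + fc * (Φ.1 * A.2 + u2 * A.1) + 2 * l + ext.2)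

theorem neck_eval {c h l k : ℕ} (h3 : 3 ≤ c) (h1 : 1 ≤ h) (h2 : 2 * h < c) (f : ℕ →*₀ ℕ)
    (Φ ext : ℕ × ℕ)
    (hΦ : ∑ T ∈ (QQ c l k).powerset,
      (f (Pool.Agent.W151.TreeRec.tau (neck c h l k) (insert ⟨0, by omega⟩ T)) : Du) *
        Du.x ^ T.card = ⟨Φ.1, Φ.2⟩)
    (hext : P f (neck c h l k) (QQ c l k) (fun _ => Du.x) = ⟨ext.1, ext.2⟩) :
    P f (neck c h l k) univ (fun _ => Du.x) =
      ⟨(neckN c h l Φ ext (f c)).1, (neckN c h l Φ ext (f c)).2⟩ := by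
  rw [P_neck h3 h1 h2, hΦ, P_neck_cycle h3 h1 h2, hext, (loopT_eval c h l _ _).2,
    (loopD_eval c h l _).2, al_eval]
  have e : ((2 * l : ℕ) : Du) = ⟨2 * l, 0⟩ := rfl
  rw [e]
  ext
  · simp [neckN, Du.x]
  · simp [neckN, Du.x]
    ring

end Pool.Agent.R39.ST
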