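import Mathlib
import Pool.Agent.R39.ST.Poly
import Pool.Agent.R39.ST.Dual

set_option autoImplicit false
set_option linter.unusedSectionVars false

/-! # The numbers of subtrees and of connected sets as weighted counts -/

namespace Pool.Agent.R39.ST

open Finset
open Pool.Agent.W151.TreeRec (tau)

variable {V : Type} [Fintype V]

/-- number of subtrees with `k` vertices -/
noncomputable def sk (G : SimpleGraph V) (k : ℕ) : ℕ :=
  Set.ncard {H : G.Subgraph | H.coe.IsTree ∧ H.verts.ncard = k}

lemma sk_eq (G : SimpleGraph V) (k : ℕ) :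
    sk G k = ∑ S ∈ univ.filter (fun S : Finset V => S.card = k), tau G S := by
  classical
  have : Fintype G.Subgraph := Fintype.ofFinite _
  unfold sk tau
  have h1 : ∀ (p : G.Subgraph → Prop) [DecidablePred p],
      Set.ncard {H : G.Subgraph | p H} = (univ.filter p).card := by
    intro p _
    rw [← Set.ncard_coe_finset]
    congr 1
    ext H
    simp
  rw [h1]
  rw [card_eq_sum_card_fiberwise (f := fun H : G.Subgraph => H.verts.toFinset)
    (t := univ.filter (fun S : Finset V => S.card = k))]
  · refine sum_congr rfl (fun S hS => ?_)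
    rw [h1]
    congr 1
    ext H
    simp only [mem_filter, mem_univ, true_and] at hS ⊢
    constructor
    · rintro ⟨⟨h2, h3⟩, h4⟩
      refine ⟨h2, ?_⟩
      rw [← h4]; simp
    · rintro ⟨h2, h3⟩
      refine ⟨⟨h2, ?_⟩, ?_⟩
      · rw [h3, Set.ncard_coe_finset, hS]
      · ext x
        rw [Set.mem_toFinset, h3, mem_coe]
  · intro H hH
    simp only [coe_filter, mem_univ, true_and, Set.mem_ofPred_eq] at hH ⊢
    rw [← hH.2, Set.ncard_eq_toFinset_card']

lemma sum_sk {M : Type} [CommSemiring M] (G : SimpleGraph V) (φ : ℕ → M) :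
    ∑ k ∈ Icc 1 (Fintype.card V), φ k * (sk G k : M) =
      ∑ S : Finset V, φ S.card * (tau G S : M) := by
  classical
  have h1 : ∑ k ∈ Icc 1 (Fintype.card V), φ k * (sk G k : M) =
      ∑ k ∈ Icc 1 (Fintype.card V), ∑ S ∈ univ.filter (fun S : Finset V => S.card = k),
        φ S.card * (tau G S : M) := by
    refine sum_congr rfl (fun k _ => ?_)
    rw [sk_eq]
    push_cast
    rw [mul_sum]
    refine sum_congr rfl (fun S hS => ?_)
    rw [mem_filter] at hS
    rw [hS.2]
  rw [h1]
  have h2 : ∑ k ∈ Icc 1 (Fintype.card V), ∑ S ∈ univ.filter (fun S : Finset V => S.card = k),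
        φ S.card * (tau G S : M) = ∑ S ∈ univ.filter (fun S : Finset V => S.Nonempty),
        φ S.card * (tau G S : M) := by
    rw [← sum_fiberwise_of_maps_to (s := univ.filter (fun S : Finset V => S.Nonempty))
      (t := Icc 1 (Fintype.card V)) (g := fun S => S.card)]
    · refine sum_congr rfl (fun k hk => ?_)
      rw [mem_Icc] at hk
      congr 1
      ext S
      simp only [mem_filter, mem_univ, true_and]
      constructor
      · intro h; exact ⟨by rw [← card_pos]; omega, h⟩
      · intro h; exact h.2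
    · intro S hS
      rw [mem_filter] at hS
      rw [mem_Icc]
      exact ⟨card_pos.2 hS.2, card_le_univ S⟩
  rw [h2, ← sum_filter_add_sum_filter_not univ (fun S : Finset V => S.Nonempty)]
  have h3 : ∑ S ∈ univ.filter (fun S : Finset V => ¬ S.Nonempty),
      φ S.card * (tau G S : M) = 0 := by
    apply sum_eq_zero
    intro S hS
    rw [mem_filter, not_nonempty_iff_eq_empty] at hS
    rw [hS.2, tau_empty]
    simp
  rw [h3, add_zero]

/-- the number of subtrees -/
theorem count_a (G : SimpleGraph V) :
    ∑ k ∈ Icc 1 (Fintype.card V), (sk G k : ℝ) =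
      ((P (MonoidWithZeroHom.id ℕ) G univ (fun _ => Du.x)).a : ℝ) := by
  have h := sum_sk G (fun _ => (1 : ℝ))
  simp only [one_mul] at h
  rw [h]
  unfold P
  rw [Du.sum_a, powerset_univ]
  push_cast
  refine sum_congr rfl (fun S _ => ?_)
  rw [prod_const, Du.x_pow]
  simp

/-- the sum of the orders of the subtrees -/
theorem count_b (G : SimpleGraph V) :
    ∑ k ∈ Icc 1 (Fintype.card V), (k : ℝ) * (sk G k : ℝ) =
      ((P (MonoidWithZeroHom.id ℕ) G univ (fun _ => Du.x)).b : ℝ) := by
  have h := sum_sk G (fun k => (k : ℝ))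
  rw [h]
  unfold P
  rw [Du.sum_b, powerset_univ]
  push_cast
  refine sum_congr rfl (fun S _ => ?_)
  rw [prod_const, Du.x_pow]
  simp only [MonoidWithZeroHom.id_apply, Du.mul_b, Du.cast_a, Du.cast_b]
  push_cast
  ring

/-- isomorphic graphs have the same numbers of subtrees -/
theorem sk_iso {W : Type} [Fintype W] {G : SimpleGraph V} {H : SimpleGraph W} (e : G ≃g H)
    (k : ℕ) : sk G k = sk H k := by
  unfold sk
  have hinj : Function.Injective (SimpleGraph.Subgraph.map (G := G) (G' := H) e.toHom) := by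
    intro K K' hK
    have h1 := congrArg (SimpleGraph.Subgraph.map e.symm.toHom) hK
    rw [← SimpleGraph.Subgraph.map_comp, ← SimpleGraph.Subgraph.map_comp] at h1
    have h2 : e.symm.toHom.comp e.toHom = SimpleGraph.Hom.id := by
      ext v; simp
    rw [h2, SimpleGraph.Subgraph.map_id, SimpleGraph.Subgraph.map_id] at h1
    exact h1
  rw [← Set.ncard_image_of_injective _ hinj]
  congr 1
  ext K
  simp only [Set.mem_image, Set.mem_ofPred_eq]
  have key : ∀ L : G.Subgraph, (L.coe.IsTree ↔ (L.map e.toHom).coe.IsTree) ∧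
      L.verts.ncard = (L.map e.toHom).verts.ncard := by
    intro L
    refine ⟨SimpleGraph.Iso.isTree_iff (e.toCopy.isoSubgraphMap L), ?_⟩
    rw [SimpleGraph.Subgraph.map_verts]
    exact (Set.ncard_image_of_injective _ e.injective).symm
  constructor
  · rintro ⟨L, ⟨h1, h2⟩, rfl⟩
    exact ⟨(key L).1.1 h1, (key L).2 ▸ h2⟩
  · rintro ⟨h1, h2⟩
    have h3 : e.toHom.comp e.symm.toHom = SimpleGraph.Hom.id := by
      ext v; simp
    have h4 : (K.map e.symm.toHom).map e.toHom = K := by
      rw [← SimpleGraph.Subgraph.map_comp, h3, SimpleGraph.Subgraph.map_id]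
    refine ⟨K.map e.symm.toHom, ⟨?_, ?_⟩, h4⟩
    · rw [(key _).1, h4]; exact h1
    · rw [(key _).2, h4]; exact h2

/-- the multiplicative function `n ↦ [n ≠ 0]` -/
def sgn : ℕ →*₀ ℕ where
  toFun n := if n = 0 then 0 else 1
  map_zero' := rfl
  map_one' := rfl
  map_mul' a b := by
    by_cases ha : a = 0
    · simp [ha]
    · by_cases hb : b = 0
      · simp [hb]
      · simp [ha, hb]

lemma sgn_apply (n : ℕ) : sgn n = if n = 0 then 0 else 1 := rfl

/-- the connected sets -/
noncomputable def conn (G : SimpleGraph V) : Finset (Finset V) := by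
  classical exact univ.filter (fun S : Finset V => (G.induce (S : Set V)).Connected)

lemma mem_conn (G : SimpleGraph V) (S : Finset V) :
    S ∈ conn G ↔ (G.induce (S : Set V)).Connected := by simp [conn]

lemma sum_conn (G : SimpleGraph V) (φ : Finset V → ℕ) :
    ∑ S ∈ conn G, φ S = ∑ S : Finset V, sgn (tau G S) * φ S := by
  classical
  have e : conn G = univ.filter (fun S : Finset V => S ∈ conn G) := by ext; simp
  rw [e, sum_filter]
  refine sum_congr rfl (fun S _ => ?_)
  have hm := mem_conn G S
  rw [← tau_ne_zero_iff] at hm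
  rw [sgn_apply]
  by_cases h : tau G S = 0
  · rw [if_neg (fun h' => hm.1 h' h), if_pos h, zero_mul]
  · rw [if_pos (hm.2 h), if_neg h, one_mul]

theorem conn_a (G : SimpleGraph V) :
    (conn G).card = (P sgn G univ (fun _ => Du.x)).a := by
  rw [card_eq_sum_ones, sum_conn]
  unfold P
  rw [Du.sum_a, powerset_univ]
  refine sum_congr rfl (fun S _ => ?_)
  rw [prod_const, Du.x_pow]
  simp

theorem conn_b (G : SimpleGraph V) :
    ∑ S ∈ conn G, S.card = (P sgn G univ (fun _ => Du.x)).b := by
  rw [sum_conn]
  unfold P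
  rw [Du.sum_b, powerset_univ]
  refine sum_congr rfl (fun S _ => ?_)
  rw [prod_const, Du.x_pow]
  simp

end Pool.Agent.R39.ST
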