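import Mathlib
import Pool.Agent.R39.ST.Eval
import Pool.Agent.R39.ST.Link

set_option autoImplicit false
set_option linter.unusedSectionVars false

/-! # The gadgets with zero, one, or two extra vertices -/

namespace Pool.Agent.R39.ST

open Finset
open Pool.Agent.W151.TreeRec (tau IsPar Par mem_Par tau_eq iter_fix)

/-- a triangle has three spanning trees -/
lemma tau_triangle {V : Type} [Fintype V] [DecidableEq V] {G : SimpleGraph V} {u a b : V}
    (hua : G.Adj u a) (hub : G.Adj u b) (hab : G.Adj a b) : tau G {u, a, b} = 3 := by
  have n1 : u ≠ a := hua.ne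
  have n2 : u ≠ b := hub.ne
  have n3 : a ≠ b := hab.ne
  rw [tau_eq G _ u (by simp), card_eq_three]
  refine ⟨Function.update (Function.update id a u) b u,
    Function.update (Function.update id a u) b a,
    Function.update (Function.update id a b) b u, ?_, ?_, ?_, ?_⟩
  · intro h
    have := congrFun h b
    simp at this
    exact n1 this
  · intro h
    have := congrFun h a
    simp [n3] at this
    exact n2 this
  · intro h
    have := congrFun h a
    simp [n3] at this
    exact n2 this
  · ext π
    rw [mem_Par]
    simp only [mem_insert, mem_singleton]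
    constructor
    · intro h
      obtain ⟨ha1, ha2⟩ := h.2.1 a (by simp) n1.symm
      obtain ⟨hb1, hb2⟩ := h.2.1 b (by simp) n2.symm
      simp only [mem_insert, mem_singleton] at ha1 hb1
      have hrest : ∀ v, v ≠ a → v ≠ b → π v = v := by
        intro v hva hvb
        apply h.1
        by_cases hvu : v = u
        · exact Or.inr hvu
        · left; simp [hva, hvb, hvu]
      have ha3 : π a ≠ a := ha2.ne.symm
      have hb3 : π b ≠ b := hb2.ne.symm
      have hnot : ¬ (π a = b ∧ π b = a) := by
        rintro ⟨h1, h2⟩
        obtain ⟨k, hk⟩ := h.2.2 a (by simp)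
        have key : ∀ k, π^[k] a = a ∨ π^[k] a = b := by
          intro k
          induction k with
          | zero => left; rfl
          | succ k ih =>
            rw [Function.iterate_succ_apply']
            rcases ih with h3 | h3
            · rw [h3]; right; exact h1
            · rw [h3]; left; exact h2
        rcases key k with h3 | h3
        · rw [h3] at hk; exact n1 hk.symm
        · rw [h3] at hk; exact n2 hk.symm
      rcases ha1 with ha1 | ha1 | ha1
      · rcases hb1 with hb1 | hb1 | hb1
        · left
          funext v
          by_cases hvb : v = b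
          · subst hvb; rw [Function.update_self]; exact hb1
          · rw [Function.update_of_ne hvb]
            by_cases hva : v = a
            · subst hva; rw [Function.update_self]; exact ha1
            · rw [Function.update_of_ne hva]; exact hrest v hva hvb
        · right; left
          funext v
          by_cases hvb : v = b
          · subst hvb; rw [Function.update_self]; exact hb1
          · rw [Function.update_of_ne hvb]
            by_cases hva : v = a
            · subst hva; rw [Function.update_self]; exact ha1
            · rw [Function.update_of_ne hva]; exact hrest v hva hvb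
        · exact absurd hb1 hb3
      · exact absurd ha1 ha3
      · rcases hb1 with hb1 | hb1 | hb1
        · right; right
          funext v
          by_cases hvb : v = b
          · subst hvb; rw [Function.update_self]; exact hb1
          · rw [Function.update_of_ne hvb]
            by_cases hva : v = a
            · subst hva; rw [Function.update_self]; exact ha1
            · rw [Function.update_of_ne hva]; exact hrest v hva hvb
        · exact absurd ⟨ha1, hb1⟩ hnot
        · exact absurd hb1 hb3
    · have hout : ∀ (p q : V) (v : V), (v ∉ ({u, a, b} : Finset V) ∨ v = u) →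
          Function.update (Function.update id a p) b q v = v := by
        intro p q v hv
        have h1 : v ≠ a ∧ v ≠ b := by
          rcases hv with hv | hv
          · simp only [mem_insert, mem_singleton, not_or] at hv
            exact hv.2
          · rw [hv]; exact ⟨n1, n2⟩
        rw [Function.update_of_ne h1.2, Function.update_of_ne h1.1]
        rfl
      have hva : ∀ (p q : V), Function.update (Function.update id a p) b q a = p := by
        intro p q
        rw [Function.update_of_ne n3, Function.update_self]
      have hvb : ∀ (p q : V), Function.update (Function.update id a p) b q b = q := by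
        intro p q
        rw [Function.update_self]
      rintro (rfl | rfl | rfl)
      · refine ⟨hout _ _, ?_, ?_⟩
        · intro v hv hvu
          simp only [mem_insert, mem_singleton] at hv
          rcases hv with rfl | rfl | rfl
          · exact absurd rfl hvu
          · rw [hva]; exact ⟨by simp, hua.symm⟩
          · rw [hvb]; exact ⟨by simp, hub.symm⟩
        · intro v hv
          simp only [mem_insert, mem_singleton] at hv
          rcases hv with rfl | rfl | rfl
          · exact ⟨0, rfl⟩
          · exact ⟨1, by rw [Function.iterate_one, hva]⟩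
          · exact ⟨1, by rw [Function.iterate_one, hvb]⟩
      · refine ⟨hout _ _, ?_, ?_⟩
        · intro v hv hvu
          simp only [mem_insert, mem_singleton] at hv
          rcases hv with rfl | rfl | rfl
          · exact absurd rfl hvu
          · rw [hva]; exact ⟨by simp, hua.symm⟩
          · rw [hvb]; exact ⟨by simp, hab.symm⟩
        · intro v hv
          simp only [mem_insert, mem_singleton] at hv
          rcases hv with rfl | rfl | rfl
          · exact ⟨0, rfl⟩
          · exact ⟨1, by rw [Function.iterate_one, hva]⟩
          · refine ⟨2, ?_⟩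
            rw [Function.iterate_succ_apply, hvb, Function.iterate_one, hva]
      · refine ⟨hout _ _, ?_, ?_⟩
        · intro v hv hvu
          simp only [mem_insert, mem_singleton] at hv
          rcases hv with rfl | rfl | rfl
          · exact absurd rfl hvu
          · rw [hva]; exact ⟨by simp, hab⟩
          · rw [hvb]; exact ⟨by simp, hub.symm⟩
        · intro v hv
          simp only [mem_insert, mem_singleton] at hv
          rcases hv with rfl | rfl | rfl
          · exact ⟨0, rfl⟩
          · refine ⟨2, ?_⟩
            rw [Function.iterate_succ_apply, hva, Function.iterate_one, hvb]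
          · exact ⟨1, by rw [Function.iterate_one, hvb]⟩

variable {c h l : ℕ}

theorem neck0 (h3 : 3 ≤ c) (h1 : 1 ≤ h) (h2 : 2 * h < c) (f : ℕ →*₀ ℕ) :
    P f (neck c h l 0) univ (fun _ => Du.x) =
      ⟨(neckN c h l (1, 0) (0, 0) (f c)).1, (neckN c h l (1, 0) (0, 0) (f c)).2⟩ := by
  have hQ : QQ c l 0 = ∅ := by
    rw [eq_empty_iff_forall_notMem]
    intro a ha
    simp only [QQ, mem_filter, mem_univ, true_and] at ha
    omega
  apply neck_eval h3 h1 h2
  · rw [hQ, powerset_empty, sum_singleton]
    have e : insert (⟨0, by omega⟩ : Fin (c + 2 * l + 0)) ∅ =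
      ({⟨0, by omega⟩} : Finset (Fin (c + 2 * l + 0))) := rfl
    rw [e, tau_singleton, map_one]
    simp
    rfl
  · rw [hQ]
    unfold P
    simp [tau_empty]
    rfl

theorem neck1 (h3 : 3 ≤ c) (h1 : 1 ≤ h) (h2 : 2 * h < c) (f : ℕ →*₀ ℕ) :
    P f (neck c h l 1) univ (fun _ => Du.x) =
      ⟨(neckN c h l (2, 1) (1, 1) (f c)).1, (neckN c h l (2, 1) (1, 1) (f c)).2⟩ := by
  have hQ : QQ c l 1 = insert (⟨c + 2 * l, by omega⟩ : Fin (c + 2 * l + 1)) ∅ := by
    ext a
    simp only [QQ, mem_filter, mem_univ, true_and, mem_insert, Fin.ext_iff, notMem_empty,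
      or_false]
    omega
  have hadj : (neck c h l 1).Adj ⟨0, by omega⟩ ⟨c + 2 * l, by omega⟩ := by
    rw [neck_adj, nadj, att, att]
    simp only
    split_ifs <;> omega
  apply neck_eval h3 h1 h2
  · rw [hQ, sum_powerset_insert (notMem_empty _), powerset_empty, sum_singleton, sum_singleton]
    have e : insert (⟨0, by omega⟩ : Fin (c + 2 * l + 1)) ∅ =
      ({⟨0, by omega⟩} : Finset (Fin (c + 2 * l + 1))) := rfl
    have e2 : insert (⟨c + 2 * l, by omega⟩ : Fin (c + 2 * l + 1)) ∅ =
      ({⟨c + 2 * l, by omega⟩} : Finset (Fin (c + 2 * l + 1))) := rfl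
    rw [e, tau_singleton, map_one, e2, tau_pair hadj, map_one, card_empty, card_singleton]
    rfl
  · rw [hQ]
    unfold P
    rw [sum_powerset_insert (notMem_empty _), powerset_empty, sum_singleton, sum_singleton,
      tau_empty, map_zero]
    have e2 : insert (⟨c + 2 * l, by omega⟩ : Fin (c + 2 * l + 1)) ∅ =
      ({⟨c + 2 * l, by omega⟩} : Finset (Fin (c + 2 * l + 1))) := rfl
    rw [e2, tau_singleton, map_one, prod_singleton]
    rfl

theorem neck2 (h3 : 3 ≤ c) (h1 : 1 ≤ h) (h2 : 2 * h < c) (f : ℕ →*₀ ℕ) :
    P f (neck c h l 2) univ (fun _ => Du.x) =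
      ⟨(neckN c h l (3 + f 3, 2 + 2 * f 3) (3, 4) (f c)).1,
        (neckN c h l (3 + f 3, 2 + 2 * f 3) (3, 4) (f c)).2⟩ := by
  set g1 : Fin (c + 2 * l + 2) := ⟨c + 2 * l, by omega⟩ with hg1
  set g2 : Fin (c + 2 * l + 2) := ⟨c + 2 * l + 1, by omega⟩ with hg2
  have n12 : g1 ≠ g2 := by rw [hg1, hg2, Ne, Fin.ext_iff]; simp
  have hQ : QQ c l 2 = insert g1 (insert g2 ∅) := by
    ext a
    simp only [QQ, mem_filter, mem_univ, true_and, mem_insert, Fin.ext_iff, notMem_empty,
      or_false, hg1, hg2]
    omega
  have hadj1 : (neck c h l 2).Adj ⟨0, by omega⟩ g1 := by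
    rw [neck_adj, nadj, att, att, hg1]
    simp only
    split_ifs <;> omega
  have hadj2 : (neck c h l 2).Adj ⟨0, by omega⟩ g2 := by
    rw [neck_adj, nadj, att, att, hg2]
    simp only
    split_ifs <;> omega
  have hadj3 : (neck c h l 2).Adj g1 g2 := by
    rw [neck_adj, nadj, att, att, hg1, hg2]
    simp only
    split_ifs <;> omega
  have e0 : ∀ z : Fin (c + 2 * l + 2), insert z (∅ : Finset (Fin (c + 2 * l + 2))) = {z} :=
    fun _ => rfl
  have m1 : g1 ∉ ({g2} : Finset (Fin (c + 2 * l + 2))) := by
    rw [mem_singleton]; exact n12
  apply neck_eval h3 h1 h2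
  · rw [hQ, e0, sum_powerset_insert m1, ← e0 g2, sum_powerset_insert (notMem_empty _),
      sum_powerset_insert (notMem_empty _), powerset_empty, sum_singleton, sum_singleton,
      sum_singleton, sum_singleton, e0, e0, e0, tau_singleton, tau_pair hadj2, tau_pair hadj1,
      tau_triangle hadj1 hadj2 hadj3, map_one, card_empty, card_singleton, card_singleton,
      card_pair n12]
    ext
    · simp [Du.x, Du.pow_eq]; ring
    · simp [Du.x, Du.pow_eq]; ring
  · rw [hQ]
    unfold P
    rw [e0, sum_powerset_insert m1, ← e0 g2, sum_powerset_insert (notMem_empty _),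
      sum_powerset_insert (notMem_empty _), powerset_empty, sum_singleton, sum_singleton,
      sum_singleton, sum_singleton, e0, e0, tau_empty, tau_singleton, tau_singleton,
      tau_pair hadj3, map_one, map_zero, prod_singleton, prod_singleton, prod_pair n12]
    rfl

/-- the necklace is connected -/
theorem neck_connected {k : ℕ} (h3 : 3 ≤ c) (h1 : 1 ≤ h) (h2 : 2 * h < c) :
    (neck c h l k).Connected := by
  rw [SimpleGraph.connected_iff_exists_forall_reachable]
  refine ⟨⟨0, by omega⟩, ?_⟩
  have key : ∀ (n : ℕ) (hn : n < c), (neck c h l k).Reachable ⟨0, by omega⟩ ⟨n, by omega⟩ := by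
    intro n
    induction n with
    | zero => intro _; exact SimpleGraph.Reachable.refl _
    | succ n ih =>
      intro hn
      refine (ih (by omega)).trans (SimpleGraph.Adj.reachable ?_)
      rw [neck_adj, nadj]
      exact ⟨Nat.ne_of_lt (Nat.lt_succ_self n),
        Or.inl ⟨Nat.lt_of_succ_lt hn, hn, Or.inl rfl⟩⟩
  intro a
  by_cases ha : a.val < c
  · exact key a.val ha
  · have hatt : att c h l a.val < c := by
      rw [att]; split_ifs <;> omega
    refine (key _ hatt).trans (SimpleGraph.Adj.reachable ?_)
    rw [neck_adj, nadj]
    refine ⟨?_, Or.inr (Or.inl ⟨hatt, by omega, rfl⟩)⟩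
    simp only
    omega

end Pool.Agent.R39.ST
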